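import Pool.Agent.Lib_helper59.Lang.Defs

open Real Set

namespace LangFC

/-- Borel's growth lemma: an unbounded monotone function satisfies
`Φ (r + 4 / Φ r) ≤ 2 Φ r` for arbitrarily large `r`. -/
lemma borel_growth {Φ : ℝ → ℝ} (hmono : MonotoneOn Φ (Ioi 0)) {r₁ : ℝ} (hr₁ : 0 < r₁)
    (h1 : 1 ≤ Φ r₁) : ∃ r, r₁ ≤ r ∧ Φ (r + 4 / Φ r) ≤ 2 * Φ r := by
  by_contra hcon
  push Not at hcon
  let s : ℕ → ℝ := fun n => Nat.rec r₁ (fun _ x => x + 4 / Φ x) n
  have hs0 : s 0 = r₁ := rfl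
  have hss : ∀ n, s (n + 1) = s n + 4 / Φ (s n) := fun n => rfl
  have key : ∀ n : ℕ, (2 : ℝ) ^ n ≤ Φ (s n) ∧ r₁ ≤ s n ∧ s n ≤ r₁ + 8 * (1 - 1 / 2 ^ n) := by
    intro n
    induction n with
    | zero => simp [hs0, h1]
    | succ n ih =>
      obtain ⟨h2, h3, h4⟩ := ih
      have hpos : (0 : ℝ) < 2 ^ n := by positivity
      have hΦpos : 0 < Φ (s n) := lt_of_lt_of_le hpos h2
      have hlt := hcon (s n) h3
      refine ⟨?_, ?_, ?_⟩
      · rw [hss, pow_succ]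
        nlinarith
      · rw [hss]
        have : 0 < 4 / Φ (s n) := by positivity
        linarith
      · rw [hss]
        have : 4 / Φ (s n) ≤ 4 / 2 ^ n := by gcongr
        have e : (1 : ℝ) / 2 ^ (n + 1) = (1 / 2 ^ n) / 2 := by
          rw [pow_succ]; field_simp
        rw [e]
        have : (4 : ℝ) / 2 ^ n = 4 * (1 / 2 ^ n) := by ring
        linarith
  obtain ⟨n, hn⟩ := pow_unbounded_of_one_lt (Φ (r₁ + 8)) (one_lt_two (α := ℝ))
  obtain ⟨h2, h3, h4⟩ := key n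
  have h5 : s n ≤ r₁ + 8 := by
    have : (0 : ℝ) < 1 / 2 ^ n := by positivity
    linarith
  have := hmono (by simp only [mem_Ioi]; linarith) (by simp only [mem_Ioi]; linarith) h5
  linarith

lemma growth {Φ : ℝ → ℝ} (hmono : MonotoneOn Φ (Ioi 0)) (hpos : ∀ r, 1 ≤ r → 0 ≤ Φ r)
    {A C : ℝ} (hA : 0 ≤ A) (hC : 1 ≤ C)
    (h : ∀ r η, 1 ≤ r → 0 < η → η ≤ r →
      Φ r ≤ A + A * log⁺ (C * (1 + Φ (r + 4 * η)) ^ 2 * (r / η) ^ 2 / η)) :
    ∃ K, ∀ r, 1 ≤ r → Φ r ≤ K := by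
  by_contra hcon
  push Not at hcon
  -- Φ tends to infinity
  have hlarge : ∀ K, ∃ ρ, 1 ≤ ρ ∧ ∀ r, ρ ≤ r → K < Φ r := by
    intro K
    obtain ⟨ρ, h1, h2⟩ := hcon K
    refine ⟨ρ, h1, fun r hr => lt_of_lt_of_le h2 (hmono ?_ ?_ hr)⟩ <;>
      simp only [mem_Ioi] <;> linarith
  by_cases hslow : ∀ ρ : ℝ, ∃ r, ρ ≤ r ∧ (1 + Φ (5 * r)) ^ 2 ≤ r
  · obtain ⟨ρ, h1, h2⟩ := hlarge (A + A * log⁺ C)
    obtain ⟨r, h3, h4⟩ := hslow ρ
    have hr1 : 1 ≤ r := h1.trans h3
    have h5 := h r r hr1 (by linarith) le_rfl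
    have h6 := h2 r h3
    have e : r + 4 * r = 5 * r := by ring
    rw [e, div_self (by positivity : r ≠ 0), one_pow, mul_one] at h5
    have h7 : C * (1 + Φ (5 * r)) ^ 2 / r ≤ C := by
      rw [div_le_iff₀ (by linarith)]
      gcongr
    have h8 : log⁺ (C * (1 + Φ (5 * r)) ^ 2 / r) ≤ log⁺ C := by
      apply posLog_le_posLog ?_ h7
      have : 0 ≤ C * (1 + Φ (5 * r)) ^ 2 / r := by positivity
      linarith
    have h9 : A * log⁺ (C * (1 + Φ (5 * r)) ^ 2 / r) ≤ A * log⁺ C := by gcongr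
    linarith
  · push Not at hslow
    obtain ⟨ρ₀, hρ₀⟩ := hslow
    -- final comparison: log is negligible
    have hlim : ∃ X : ℝ, 1 ≤ X ∧ ∀ x, X ≤ x → A + A * Real.log (C * 3600 * x ^ 9) < x := by
      have h1 : Filter.Tendsto (fun x : ℝ => x - (A + A * Real.log (C * 3600 * x ^ 9)))
          Filter.atTop Filter.atTop := by
        have h2 : (fun x : ℝ => A + A * Real.log (C * 3600 * x ^ 9)) =o[Filter.atTop]
            (fun x : ℝ => x) := by
          have h3 : (fun x : ℝ => A + A * Real.log (C * 3600) + A * 9 * Real.log x)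
              =o[Filter.atTop] (fun x : ℝ => x) := by
            apply Asymptotics.IsLittleO.add
            · exact Asymptotics.isLittleO_const_left.2 (Or.inr
                Filter.tendsto_abs_atTop_atTop)
            · exact Real.isLittleO_log_id_atTop.const_mul_left _
          refine h3.congr' ?_ Filter.EventuallyEq.rfl
          filter_upwards [Filter.eventually_gt_atTop 0] with x hx
          have hC0 : C * 3600 ≠ 0 := by positivity
          have hx9 : x ^ 9 ≠ 0 := by positivity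
          rw [Real.log_mul hC0 hx9, Real.log_pow]
          push_cast; ring
        have h4 := h2.def (show (0:ℝ) < 1/2 by norm_num)
        apply Filter.tendsto_atTop_mono' _ (f₁ := fun x : ℝ => x / 2)
        · filter_upwards [h4, Filter.eventually_ge_atTop 0] with x hx hx0
          simp only [Real.norm_eq_abs, abs_of_nonneg hx0] at hx
          have := (abs_le.1 hx).2
          linarith
        · exact Filter.tendsto_id.atTop_div_const (by norm_num)
      obtain ⟨X, hX⟩ := (Filter.eventually_atTop.1 (h1.eventually_gt_atTop 0))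
      refine ⟨max 1 X, le_max_left _ _, fun x hx => ?_⟩
      have := hX x ((le_max_right _ _).trans hx)
      linarith
    obtain ⟨X, hX1, hX⟩ := hlim
    obtain ⟨ρ₁, hρ₁, hρ₁'⟩ := hlarge X
    set ρ : ℝ := max ρ₁ (max 1 (5 * ρ₀)) with hρ
    have hρ1 : 1 ≤ ρ := (le_max_left _ _).trans (le_max_right _ _)
    have hΦρ : 1 ≤ Φ ρ := (hX1.trans_lt (hρ₁' ρ (le_max_left _ _))).le
    obtain ⟨r, hr, hr'⟩ := borel_growth hmono (r₁ := ρ) (by linarith) hΦρ
    have hr1 : 1 ≤ r := hρ1.trans hr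
    have hΦX : X < Φ r := hρ₁' r ((le_max_left _ _).trans hr)
    have hΦ1 : 1 ≤ Φ r := hX1.trans hΦX.le
    have hΦ0 : 0 < Φ r := by linarith
    have h5r : r < 5 * (1 + Φ r) ^ 2 := by
      have h1 : ρ₀ ≤ r / 5 := by
        have : 5 * ρ₀ ≤ r := ((le_max_right _ _).trans (le_max_right _ _)).trans hr
        linarith
      have h2 := hρ₀ (r / 5) h1
      have e : 5 * (r / 5) = r := by ring
      rw [e] at h2
      linarith
    have hη1 : 1 / Φ r ≤ r := by
      have : 1 / Φ r ≤ 1 := by rw [div_le_one hΦ0]; exact hΦ1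
      linarith
    have h6 := h r (1 / Φ r) hr1 (by positivity) hη1
    have e1 : r + 4 * (1 / Φ r) = r + 4 / Φ r := by ring
    rw [e1] at h6
    have hbase : 0 ≤ Φ (r + 4 / Φ r) := by
      apply hpos
      have : 0 < 4 / Φ r := by positivity
      linarith
    have h7 : C * (1 + Φ (r + 4 / Φ r)) ^ 2 * (r / (1 / Φ r)) ^ 2 / (1 / Φ r)
        ≤ C * 3600 * (Φ r) ^ 9 := by
      have a1 : (1 + Φ (r + 4 / Φ r)) ^ 2 ≤ (3 * Φ r) ^ 2 := by
        apply pow_le_pow_left₀ (by linarith)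
        linarith
      have a2 : r ^ 2 ≤ (20 * (Φ r) ^ 2) ^ 2 := by
        apply pow_le_pow_left₀ (by linarith)
        have : (1 + Φ r) ^ 2 ≤ (2 * Φ r) ^ 2 := by
          apply pow_le_pow_left₀ (by linarith)
          linarith
        nlinarith
      have e2 : C * (1 + Φ (r + 4 / Φ r)) ^ 2 * (r / (1 / Φ r)) ^ 2 / (1 / Φ r)
          = C * (1 + Φ (r + 4 / Φ r)) ^ 2 * r ^ 2 * (Φ r) ^ 3 := by
        field_simp
      rw [e2]
      calc C * (1 + Φ (r + 4 / Φ r)) ^ 2 * r ^ 2 * (Φ r) ^ 3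
          ≤ C * (3 * Φ r) ^ 2 * (20 * (Φ r) ^ 2) ^ 2 * (Φ r) ^ 3 := by gcongr
        _ = C * 3600 * (Φ r) ^ 9 := by ring
    have h8 : log⁺ (C * (1 + Φ (r + 4 / Φ r)) ^ 2 * (r / (1 / Φ r)) ^ 2 / (1 / Φ r))
        ≤ Real.log (C * 3600 * (Φ r) ^ 9) := by
      have h9 : log⁺ (C * (1 + Φ (r + 4 / Φ r)) ^ 2 * (r / (1 / Φ r)) ^ 2 / (1 / Φ r))
          ≤ log⁺ (C * 3600 * (Φ r) ^ 9) := by
        apply posLog_le_posLog ?_ h7
        have : 0 ≤ C * (1 + Φ (r + 4 / Φ r)) ^ 2 * (r / (1 / Φ r)) ^ 2 / (1 / Φ r) := by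
          positivity
        linarith
      refine h9.trans (le_of_eq ?_)
      apply posLog_eq_log
      rw [abs_of_nonneg (by positivity)]
      have : (1:ℝ) ≤ (Φ r) ^ 9 := one_le_pow₀ hΦ1
      nlinarith
    have h10 : A * log⁺ (C * (1 + Φ (r + 4 / Φ r)) ^ 2 * (r / (1 / Φ r)) ^ 2 / (1 / Φ r))
        ≤ A * Real.log (C * 3600 * (Φ r) ^ 9) := by gcongr
    have h11 := hX (Φ r) hΦX.le
    linarith

end LangFC
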