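import Pool.Agent.Lib_helper59.Lang.NiceLib
import Pool.Agent.Lib_helper53.Lang.B
import Pool.Agent.Lib_helper83.Lang.E
import Pool.Agent.Lib_helper59.Lang.Growth

open Complex Metric Function MeromorphicOn ValueDistribution Filter Topology

namespace LangFC

/-- The core of the theorem: linearly independent powers. -/
theorem core {p m : ℕ} (hp : 1 ≤ p) (hm : (p + 1) * (p - 1) < m) (H : Fin (p + 1) → ℂ → ℂ)
    (hH : ∀ j, Nice (H j)) (hlast : H (Fin.last p) = fun _ => 1)
    (hsum : ∀ z, (∀ j, dv (H j) z = 0) → ∑ j, H j z ^ m = 0)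
    (hind : ∀ c : Fin p → ℂ, (∀ᶠ z in 𝓝[≠] (0 : ℂ), ∑ j, c j * H j.castSucc z ^ m = 0) → c = 0) :
    ∀ j, ∃ c, H j = fun _ => c := by
  have hm0 : 0 < m := by omega
  -- the Wronskian does not vanish identically
  have hmero : ∀ (j : Fin p) z, MeromorphicAt (fun z => H j.castSucc z ^ m) z :=
    fun j z => ((hH _).pow m).meromorphic z
  have hW0 : meromorphicOrderAt (wr fun (j : Fin p) z => H j.castSucc z ^ m) 0 ≠ ⊤ :=
    wr_order_ne_top _ hmero 0 hind
  have hW : ∀ a, meromorphicOrderAt (wr fun (j : Fin p) z => H j.castSucc z ^ m) a ≠ ⊤ := by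
    intro a ha
    exact hW0 (order_top_all (fun z => wr_meromorphic _ hmero z) ha 0)
  obtain ⟨C, hC⟩ := cartan hp hm H hH hlast hsum hW
  obtain ⟨C', hC'1, hC'⟩ := exists_good_radius_proof (fun j z => H j z ^ m) (fun j => (hH j).pow m) p
  set Φ : ℝ → ℝ := fun r => ∑ j, characteristic (fun z => H j z ^ m) ⊤ r with hΦ
  have hmono : MonotoneOn Φ (Set.Ioi 0) := by
    intro a ha b hb hab
    exact Finset.sum_le_sum fun j _ =>
      characteristic_monotoneOn ((hH j).pow m).meromorphic ha hb hab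
  have hpos : ∀ r, 1 ≤ r → 0 ≤ Φ r := fun r hr =>
    Finset.sum_nonneg fun j _ => characteristic_nonneg hr
  have hchar : ∀ j r, characteristic (fun z => H j z ^ m) ⊤ r = m * characteristic (H j) ⊤ r := by
    intro j r
    have := characteristic_pow_top (f := H j) (n := m) (hH j).meromorphic
    have e : (fun z => H j z ^ m) = H j ^ m := by funext z; simp
    rw [e, this]
    simp
  -- main inequality
  have hmain : ∀ r η, 1 ≤ r → 0 < η → η ≤ r →
      Φ r ≤ ((m : ℝ) * (p + 1) * (p * p + |C|)) + ((m : ℝ) * (p + 1) * (p * p + |C|)) *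
        Real.posLog (C' * (1 + Φ (r + 4 * η)) ^ 2 * (r / η) ^ 2 / η) := by
    intro r₀ η hr₀ hη hη'
    obtain ⟨r, h1, h2, h3, h4⟩ := hC' r₀ η hr₀ hη hη'
    set Q : ℝ := C' * (1 + Φ (r₀ + 4 * η)) ^ 2 * (r₀ / η) ^ 2 / η with hQ
    have hQ0 : 0 ≤ Q := by positivity
    have hr1 : 1 ≤ r := hr₀.trans h1
    set B : ℝ := (max 1 Q) ^ p with hB
    have hB1 : 1 ≤ B := one_le_pow₀ (le_max_left _ _)
    have h5 := hC r B hr1 hB1 (fun j w hw => by
        have := h3 j w hw
        rw [(hH j).dv_pow] at this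
        rcases mul_eq_zero.1 this with h | h
        · exact absurd (by exact_mod_cast h : m = 0) hm0.ne'
        · exact h)
      (fun j l hl z hz => by
        refine (h4 j l hl.le z hz).trans ?_
        calc Q ^ l ≤ (max 1 Q) ^ l := pow_le_pow_left₀ hQ0 (le_max_right _ _) l
          _ ≤ B := pow_le_pow_right₀ (le_max_left _ _) hl.le)
    have h6 : Φ r₀ ≤ Φ r := hmono (by simp only [Set.mem_Ioi]; linarith)
      (by simp only [Set.mem_Ioi]; linarith) h1
    have h7 : Real.log B = p * Real.posLog Q := by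
      have hpl : Real.posLog Q = max 0 (Real.log Q) := rfl
      rw [hB, Real.log_pow, hpl]
      congr 1
      rcases le_total 1 Q with h | h
      · rw [max_eq_right h, max_eq_right (Real.log_nonneg h)]
      · rw [max_eq_left h, Real.log_one, max_eq_left (Real.log_nonpos hQ0 h)]
    have h8 : Φ r ≤ ∑ _j : Fin (p + 1), (m : ℝ) * (p * (p * Real.posLog Q) + C) := by
      apply Finset.sum_le_sum
      intro j _
      simp only [hchar]
      have := h5 j
      rw [h7] at this
      gcongr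
    rw [Finset.sum_const, Finset.card_univ, Fintype.card_fin, nsmul_eq_mul] at h8
    have hL : 0 ≤ Real.posLog Q := Real.posLog_nonneg
    have h9 : ((p + 1 : ℕ) : ℝ) * ((m : ℝ) * (p * (p * Real.posLog Q) + C)) ≤
        ((m : ℝ) * (p + 1) * (p * p + |C|)) + ((m : ℝ) * (p + 1) * (p * p + |C|)) *
          Real.posLog Q := by
      push_cast
      have hc : C ≤ |C| := le_abs_self C
      have hc0 : 0 ≤ |C| := abs_nonneg C
      have hk : (0:ℝ) ≤ (m : ℝ) * (p + 1) := by positivity
      have : (p * (p * Real.posLog Q) + C : ℝ) ≤ (p * p + |C|) + (p * p + |C|) * Real.posLog Q := by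
        have hp0 : (0:ℝ) ≤ (p:ℝ) * p := by positivity
        have h10 : 0 ≤ |C| * Real.posLog Q := by positivity
        nlinarith
      calc ((p : ℝ) + 1) * ((m : ℝ) * (p * (p * Real.posLog Q) + C))
          = ((m : ℝ) * (p + 1)) * (p * (p * Real.posLog Q) + C) := by ring
        _ ≤ ((m : ℝ) * (p + 1)) * ((p * p + |C|) + (p * p + |C|) * Real.posLog Q) := by gcongr
        _ = _ := by ring
    linarith
  obtain ⟨K, hK⟩ := growth hmono hpos (by positivity) hC'1 hmain
  intro j
  apply eq_const_of_characteristic_bounded (hH j) (C := K)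
  intro r₀
  refine ⟨max 1 r₀, le_max_right _ _, ?_⟩
  have h1 := hK (max 1 r₀) (le_max_left _ _)
  have h2 : characteristic (fun z => H j z ^ m) ⊤ (max 1 r₀) ≤ Φ (max 1 r₀) :=
    Finset.single_le_sum (f := fun j => characteristic (fun z => H j z ^ m) ⊤ (max 1 r₀))
      (fun i _ => characteristic_nonneg (le_max_left _ _)) (Finset.mem_univ j)
  rw [hchar] at h2
  have h3 : 0 ≤ characteristic (H j) ⊤ (max 1 r₀) := characteristic_nonneg (le_max_left _ _)
  have h4 : (1 : ℝ) ≤ m := by exact_mod_cast hm0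
  nlinarith

/-- Borel-Cartan for `m`-th powers -/
theorem borel_cartan_proof {k m : ℕ} (hm : k * (k - 2) < m) (G : Fin k → ℂ → ℂ)
    (hG : ∀ j, Nice (G j)) (c : Fin k → ℂ) (hc : ∃ j, c j ≠ 0)
    (hsum : ∀ z, (∀ j, dv (G j) z = 0) → ∑ j, c j * G j z ^ m = 0) :
    ∃ i j : Fin k, i ≠ j ∧ ∃ e : ℂ, e ≠ 0 ∧ ∀ z, (∀ j, dv (G j) z = 0) → G i z = e * G j z := by
  classical
  have hm0 : 0 < m := by omega
  -- a minimal relation
  let rel : (Fin k → ℂ) → Prop := fun c =>
    (∃ j, c j ≠ 0) ∧ ∀ z, (∀ j, dv (G j) z = 0) → ∑ j, c j * G j z ^ m = 0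
  let supp : (Fin k → ℂ) → Finset (Fin k) := fun c => Finset.univ.filter fun j => c j ≠ 0
  have hex : ∃ q, ∃ c, rel c ∧ (supp c).card = q := ⟨_, c, ⟨hc, hsum⟩, rfl⟩
  obtain ⟨b, ⟨hb0, hb⟩, hbq⟩ := Nat.find_spec hex
  have hmin : ∀ c, rel c → Nat.find hex ≤ (supp c).card := fun c hc =>
    Nat.find_min' hex ⟨c, hc, rfl⟩
  set q := Nat.find hex with hq
  have hgood : ∀ a : ℂ, ∀ᶠ z in 𝓝[≠] a, ∀ j, dv (G j) z = 0 := by
    intro a
    have := eventually_good Finset.univ G (fun i _ => hG i) a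
    simpa using this
  -- at least two terms
  have hq2 : 2 ≤ q := by
    by_contra hlt
    have h1 : (supp b).card ≤ 1 := by omega
    obtain ⟨j₀, hj₀⟩ := hb0
    have h2 : ∀ j, j ≠ j₀ → b j = 0 := by
      intro j hj
      by_contra hbj
      have := Finset.card_le_one.1 h1 j (by simp [supp, hbj]) j₀ (by simp [supp, hj₀])
      exact hj this
    obtain ⟨z, hz⟩ := (hgood 0).exists
    have h3 := hb z hz
    rw [Finset.sum_eq_single j₀ (fun j _ hj => by rw [h2 j hj, zero_mul]) (by simp)] at h3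
    rcases mul_eq_zero.1 h3 with h | h
    · exact hj₀ h
    · exact (hG j₀).ne_zero (hz j₀) (pow_eq_zero_iff hm0.ne' |>.1 h)
  obtain ⟨p, hp⟩ : ∃ p, q = p + 1 := ⟨q - 1, by omega⟩
  have hp1 : 1 ≤ p := by omega
  have hqk : q ≤ k := by
    rw [← hbq]; simpa using Finset.card_le_univ (supp b)
  have hmp : (p + 1) * (p - 1) < m := by
    refine lt_of_le_of_lt ?_ hm
    have h1 : p - 1 ≤ k - 2 := by omega
    exact Nat.mul_le_mul (by omega) h1
  have hcard : (supp b).card = p + 1 := by rw [hbq, hp]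
  let σ : Fin (p + 1) ↪o Fin k := (supp b).orderEmbOfFin hcard
  have hσ : ∀ j, b (σ j) ≠ 0 := by
    intro j
    have h := Finset.orderEmbOfFin_mem (supp b) hcard j
    exact (Finset.mem_filter.1 h).2
  have hσ' : ∀ i, b i ≠ 0 → ∃ j, σ j = i := by
    intro i hi
    have : i ∈ Set.range σ := by
      rw [Finset.range_orderEmbOfFin]
      simp [supp, hi]
    exact this
  -- sums over `Fin k` reduce to sums over `Fin (p + 1)`
  have hred : ∀ (d : Fin k → ℂ), (∀ i, b i = 0 → d i = 0) → ∑ i, d i = ∑ j, d (σ j) := by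
    intro d hd
    have : ∑ j, d (σ j) = ∑ i ∈ Finset.univ.map σ.toEmbedding, d i := by
      rw [Finset.sum_map]; rfl
    rw [this]
    symm
    apply Finset.sum_subset (Finset.subset_univ _)
    intro i _ hi
    apply hd
    by_contra hbi
    obtain ⟨j, hj⟩ := hσ' i hbi
    exact hi (Finset.mem_map.2 ⟨j, Finset.mem_univ _, hj⟩)
  -- roots of the coefficients
  choose β hβ using fun j : Fin (p + 1) => IsAlgClosed.exists_pow_nat_eq (b (σ j)) hm0
  have hβ0 : ∀ j, β j ≠ 0 := by
    intro j h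
    have := hβ j
    rw [h, zero_pow hm0.ne'] at this
    exact hσ j this.symm
  set l := Fin.last p with hl
  let H : Fin (p + 1) → ℂ → ℂ := fun j => ratio (G (σ j)) (G (σ l)) (β j / β l)
  have hcoef : ∀ j, β j / β l ≠ 0 := fun j => div_ne_zero (hβ0 j) (hβ0 l)
  have hH : ∀ j, Nice (H j) := fun j => nice_ratio (hG _) (hG _) (hcoef j)
  have hHev : ∀ a : ℂ, ∀ᶠ z in 𝓝[≠] a, (∀ j, dv (G j) z = 0) ∧
      ∀ j, H j z = β j / β l * G (σ j) z / G (σ l) z := by
    intro a
    filter_upwards [hgood a] with z hz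
    exact ⟨hz, fun j => ratio_apply (hG _) (hG _) (hcoef j) (hz _) (hz _)⟩
  have hlast : H l = fun _ => 1 := by
    apply (hH l).eq_of_eventuallyEq (nice_const one_ne_zero) (a := 0)
    filter_upwards [hHev 0] with z hz
    rw [hz.2 l]
    have := (hG (σ l)).ne_zero (hz.1 _)
    have := hβ0 l
    field_simp
  have hpowev : ∀ a : ℂ, ∀ᶠ z in 𝓝[≠] a, G (σ l) z ≠ 0 ∧ (∀ j, dv (G j) z = 0) ∧
      ∀ j, H j z ^ m = b (σ j) * G (σ j) z ^ m / (b (σ l) * G (σ l) z ^ m) := by
    intro a
    filter_upwards [hHev a] with z hz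
    refine ⟨(hG (σ l)).ne_zero (hz.1 _), hz.1, fun j => ?_⟩
    rw [hz.2 j, div_pow, mul_pow, div_pow, hβ, hβ]
    have h1 := hσ l
    have h2 := pow_ne_zero m ((hG (σ l)).ne_zero (hz.1 _))
    field_simp
  have hsumev : ∀ a : ℂ, ∀ᶠ z in 𝓝[≠] a, ∑ j, H j z ^ m = 0 := by
    intro a
    filter_upwards [hpowev a] with z hz
    have h1 := hb z hz.2.1
    rw [hred (fun i => b i * G i z ^ m) (fun i hi => by simp [hi])] at h1
    simp only [hz.2.2]
    rw [← Finset.sum_div, h1, zero_div]
  have hsumH : ∀ z, (∀ j, dv (H j) z = 0) → ∑ j, H j z ^ m = 0 := by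
    intro z hz
    have h1 : AnalyticAt ℂ (fun z => ∑ j, H j z ^ m) z :=
      Finset.analyticAt_fun_sum _ fun j _ => ((hH j).analyticAt (hz j).ge).pow m
    have h2 : Meromorphic (fun z => ∑ j, H j z ^ m) := fun x =>
      MeromorphicAt.fun_sum fun j _ => ((hH j).pow m).meromorphic x
    exact relation_everywhere h2 (hsumev 0) h1.continuousAt
  have hind : ∀ c : Fin p → ℂ,
      (∀ᶠ z in 𝓝[≠] (0 : ℂ), ∑ j, c j * H j.castSucc z ^ m = 0) → c = 0 := by
    intro d hd
    by_contra hd0
    obtain ⟨j₁, hj₁⟩ := Function.ne_iff.1 hd0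
    -- the new relation
    let d' : Fin (p + 1) → ℂ := Fin.snoc d 0
    let D : Fin k → ℂ := fun i => if h : ∃ j, σ j = i then d' h.choose * b i else 0
    have hD : ∀ j, D (σ j) = d' j * b (σ j) := by
      intro j
      have h : ∃ j', σ j' = σ j := ⟨j, rfl⟩
      simp only [D, dif_pos h]
      congr 2
      exact σ.injective h.choose_spec
    have hD0 : ∀ i, b i = 0 → D i = 0 := by
      intro i hi
      simp only [D]
      split_ifs <;> simp [hi]
    have hrel : rel D := by
      refine ⟨⟨σ j₁.castSucc, ?_⟩, ?_⟩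
      · rw [hD]
        refine mul_ne_zero ?_ (hσ _)
        simpa [d'] using hj₁
      · have h1 : ∀ᶠ z in 𝓝[≠] (0:ℂ), ∑ i, D i * G i z ^ m = 0 := by
          filter_upwards [hd, hpowev 0] with z hz1 hz2
          rw [hred (fun i => D i * G i z ^ m) (fun i hi => by simp [hD0 i hi])]
          simp only [hD]
          rw [Fin.sum_univ_castSucc]
          simp only [d', Fin.snoc_castSucc, Fin.snoc_last, zero_mul, add_zero]
          have h2 : ∀ j : Fin p, d j * b (σ j.castSucc) * G (σ j.castSucc) z ^ m =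
              (b (σ l) * G (σ l) z ^ m) * (d j * H j.castSucc z ^ m) := by
            intro j
            rw [hz2.2.2]
            have h3 := hσ l
            have h4 := pow_ne_zero m hz2.1
            field_simp
          simp only [h2]
          rw [← Finset.mul_sum, hz1, mul_zero]
        intro z hz
        have h2 : AnalyticAt ℂ (fun z => ∑ i, D i * G i z ^ m) z :=
          Finset.analyticAt_fun_sum _ fun j _ =>
            analyticAt_const.mul (((hG j).analyticAt (hz j).ge).pow m)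
        have h3 : Meromorphic (fun z => ∑ i, D i * G i z ^ m) := fun x =>
          MeromorphicAt.fun_sum fun j _ =>
            (MeromorphicAt.const (D j) x).fun_mul (((hG j).pow m).meromorphic x)
        exact relation_everywhere h3 h1 h2.continuousAt
    have h1 := hmin D hrel
    have h2 : (supp D).card < (supp b).card := by
      apply Finset.card_lt_card
      refine ⟨fun i hi => ?_, fun h => ?_⟩
      · simp only [supp, Finset.mem_filter, Finset.mem_univ, true_and] at hi ⊢
        exact fun h => hi (hD0 i h)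
      · have h3 : σ l ∈ supp D := h (by simp [supp, hσ l])
        simp only [supp, Finset.mem_filter, Finset.mem_univ, true_and] at h3
        apply h3
        rw [hD]
        simp [d', hl]
    omega
  obtain ⟨e, he⟩ := core hp1 hmp H hH hlast hsumH hind ⟨0, by omega⟩
  have he0 : e ≠ 0 := by
    rintro rfl
    obtain ⟨z, hz⟩ := exists_of_codiscrete (hH ⟨0, by omega⟩).codiscrete_dv
    exact (hH ⟨0, by omega⟩).ne_zero hz (by rw [he])
  refine ⟨σ ⟨0, by omega⟩, σ l, ?_, e / (β ⟨0, by omega⟩ / β l), ?_, ?_⟩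
  · intro h
    have := σ.injective h
    rw [hl, Fin.ext_iff] at this
    simp at this
    omega
  · exact div_ne_zero he0 (hcoef _)
  · intro z hz
    have h1 := ratio_apply (hG (σ ⟨0, by omega⟩)) (hG (σ l)) (hcoef ⟨0, by omega⟩) (hz _) (hz _)
    have h2 : H ⟨0, by omega⟩ z = e := by rw [he]
    have h3 : ratio (G (σ ⟨0, by omega⟩)) (G (σ l)) (β ⟨0, by omega⟩ / β l) z = e := h2
    rw [h3] at h1
    have h4 := (hG (σ l)).ne_zero (hz _)
    have h5 := hβ0 ⟨0, by omega⟩
    have h6 := hβ0 l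
    field_simp at h1 ⊢
    rw [← h1]

end LangFC
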