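import Pool.Agent.Lib_helper59.Lang.Growth

open Complex Metric Function MeromorphicOn ValueDistribution Filter Topology

namespace LangFC

/-- order `⊤` somewhere implies order `⊤` everywhere -/
lemma order_top_all {g : ℂ → ℂ} (hg : Meromorphic g) {a : ℂ} (ha : meromorphicOrderAt g a = ⊤)
    (z : ℂ) : meromorphicOrderAt g z = ⊤ := by
  by_contra hz
  have h1 : ∃ u : (Set.univ : Set ℂ), meromorphicOrderAt g u ≠ ⊤ := ⟨⟨z, trivial⟩, hz⟩
  have h2 := (MeromorphicOn.exists_meromorphicOrderAt_ne_top_iff_forall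
    (f := g) (U := Set.univ) (fun x _ => hg x) isConnected_univ).1 h1
  exact h2 ⟨a, trivial⟩ ha

/-- if `f` is nice and agrees with the constant `c` near one point then everywhere -/
lemma Nice.eq_const_of_order {f : ℂ → ℂ} (hf : Nice f) {c : ℂ} {a : ℂ}
    (ha : meromorphicOrderAt (fun z => f z - c) a = ⊤) : f = fun _ => c := by
  have hg : Meromorphic (fun z => f z - c) := fun z => (hf.meromorphic z).sub (MeromorphicAt.const c z)
  funext z
  have h1 := order_top_all hg ha z
  rw [meromorphicOrderAt_eq_top_iff] at h1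
  have h2 : f =ᶠ[𝓝[≠] z] fun _ => c := by
    filter_upwards [h1] with x hx
    exact sub_eq_zero.1 hx
  have h3 := ((hf.nf z).eventuallyEq_nhdsNE_iff_eventuallyEq_nhds
    (analyticAt_const.meromorphicNFAt)).1 h2
  exact h3.eq_of_nhds

/-- points outside of the divisor: the function is analytic and nonzero -/
lemma Nice.order_eq {f : ℂ → ℂ} (hf : Nice f) (z : ℂ) :
    meromorphicOrderAt f z = ((dv f z : ℤ) : WithTop ℤ) := by
  rw [MeromorphicOn.divisor_apply (fun x _ => hf.meromorphic x) (Set.mem_univ z)]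
  exact (WithTop.coe_untop₀_of_ne_top (hf.ord z)).symm

lemma Nice.ne_zero {f : ℂ → ℂ} (hf : Nice f) {z : ℂ} (hz : dv f z = 0) : f z ≠ 0 := by
  have := hf.order_eq z
  rw [hz] at this
  exact (hf.nf z).meromorphicOrderAt_eq_zero_iff.1 this

lemma Nice.analyticAt {f : ℂ → ℂ} (hf : Nice f) {z : ℂ} (hz : 0 ≤ dv f z) : AnalyticAt ℂ f z := by
  have := hf.order_eq z
  apply (hf.nf z).meromorphicOrderAt_nonneg_iff_analyticAt.1
  rw [this]
  exact_mod_cast hz

lemma Nice.codiscrete_dv {f : ℂ → ℂ} (_hf : Nice f) : ∀ᶠ z in codiscrete ℂ, dv f z = 0 := by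
  have h := (dv f).eq_zero_codiscreteWithin
  rw [codiscrete]
  filter_upwards [h] with z hz using hz

lemma exists_of_codiscrete {P : ℂ → Prop} (h : ∀ᶠ z in codiscrete ℂ, P z) : ∃ z, P z := by
  have h1 : ∀ᶠ z in 𝓝[≠] (0 : ℂ), P z := by
    have := mem_codiscrete.1 h 0
    rwa [Filter.disjoint_principal_right, compl_compl] at this
  exact h1.exists

theorem exists_good_point {ι : Type*} (I : Finset ι) (u : ι → ℂ → ℂ)
    (hu : ∀ i ∈ I, Nice (u i)) : ∃ z : ℂ, ∀ i ∈ I, dv (u i) z = 0 := by
  apply exists_of_codiscrete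
  rw [Filter.eventually_all_finset]
  exact fun i hi => (hu i hi).codiscrete_dv

/-- bounded characteristic implies constant -/
theorem eq_const_of_characteristic_bounded {f : ℂ → ℂ} (hf : Nice f) {C : ℝ}
    (h : ∀ r₀ : ℝ, ∃ r ≥ r₀, characteristic f ⊤ r ≤ C) : ∃ c, f = fun _ => c := by
  obtain ⟨z₀, hz₀⟩ := exists_of_codiscrete hf.codiscrete_dv
  have han : AnalyticAt ℂ f z₀ := hf.analyticAt hz₀.ge
  set c := f z₀ with hc
  refine ⟨c, ?_⟩
  by_contra hne
  set g : ℂ → ℂ := fun z => f z - c with hgdef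
  have hg : Meromorphic g := fun z => (hf.meromorphic z).sub (MeromorphicAt.const c z)
  have hgan : AnalyticAt ℂ g z₀ := han.sub analyticAt_const
  have hgord : ∀ z, meromorphicOrderAt g z ≠ ⊤ := by
    intro z hz
    exact hne (hf.eq_const_of_order hz)
  -- bounded characteristic of f everywhere
  have hT : ∀ r, 1 ≤ r → characteristic f ⊤ r ≤ C := by
    intro r hr
    obtain ⟨r', h1, h2⟩ := h r
    have h3 := characteristic_monotoneOn hf.meromorphic (a := r) (b := r')
      (by simp only [Set.mem_Ioi]; linarith) (by simp only [Set.mem_Ioi]; linarith) h1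
    exact h3.trans h2
  -- bounded characteristic of g and 1/g
  obtain ⟨C₁, hC₁⟩ : ∃ C₁, ∀ r, 1 ≤ r → characteristic g⁻¹ ⊤ r ≤ C₁ := by
    refine ⟨C + (Real.posLog ‖c‖ + Real.log 2) +
      max |Real.log ‖g 0‖| |Real.log ‖meromorphicTrailingCoeffAt g 0‖|, fun r hr => ?_⟩
    have h1 := hT r hr
    have h2 := abs_characteristic_sub_characteristic_shift_le (a₀ := c) (r := r) hf.meromorphic
    have h3 := characteristic_sub_characteristic_inv_le (R := r) hg
    have h4 := (abs_le.1 h2).1
    have h5 := (abs_le.1 h3).1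
    linarith
  have hlc : logCounting g 0 =O[atTop] (1 : ℝ → ℝ) := by
    rw [Asymptotics.isBigO_iff]
    refine ⟨C₁, ?_⟩
    filter_upwards [eventually_ge_atTop 1] with r hr
    have h1 := hC₁ r hr
    have h2 : 0 ≤ proximity g⁻¹ ⊤ r := proximity_nonneg r
    have h3 : logCounting g⁻¹ ⊤ = logCounting g 0 := by
      simp
    have h4 : 0 ≤ logCounting g 0 r := logCounting_nonneg hr
    simp only [characteristic, Pi.add_apply, h3] at h1
    rw [Real.norm_eq_abs, abs_of_nonneg h4]
    simp only [Pi.one_apply, norm_one, mul_one]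
    linarith
  rw [logCounting_zero] at hlc
  have hpos : (divisor g Set.univ)⁺ = 0 :=
    (Function.locallyFinsuppWithin.zero_iff_logCounting_bounded (posPart_nonneg _)).2 hlc
  -- but g has a zero at z₀
  have hz : 0 < meromorphicOrderAt g z₀ := by
    rw [hgan.meromorphicOrderAt_eq]
    have : analyticOrderAt g z₀ ≠ 0 := by
      rw [Ne, hgan.analyticOrderAt_eq_zero]
      simp [hgdef, hc]
    have hne' : analyticOrderAt g z₀ ≠ ⊤ := by
      intro ht
      exact hgord z₀ (by rw [hgan.meromorphicOrderAt_eq, ht]; rfl)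
    obtain ⟨n, hn⟩ := ENat.ne_top_iff_exists.1 hne'
    rw [← hn] at this ⊢
    have h3 : 0 < n := Nat.pos_of_ne_zero (by exact_mod_cast this)
    change (0 : WithTop ℤ) < ((n : ℤ) : WithTop ℤ)
    exact_mod_cast h3
  have h7 : 0 < divisor g Set.univ z₀ := by
    rw [MeromorphicOn.divisor_apply (fun x _ => hg x) (Set.mem_univ z₀)]
    have := WithTop.coe_untop₀_of_ne_top (hgord z₀)
    rw [← this] at hz
    exact_mod_cast hz
  have h8 : (divisor g Set.univ)⁺ z₀ = 0 := by rw [hpos]; rfl
  have h9 : (divisor g Set.univ)⁺ z₀ = max (divisor g Set.univ z₀) 0 := rfl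
  rw [h9, max_eq_left h7.le] at h8
  omega

end LangFC
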