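import Pool.Agent.Lib_helper59.Lang.Defs

/-! The properties compared in the theorem on Fermat covers (MP_45e720_ag). Holomorphic maps to
projective space (`IsHolo`) and Fermat covers (`fermatCover`) are defined in `Defs.lean`. -/

open Complex Filter Topology

namespace LangFC

/-- Brody hyperbolicity of a subset `X` of projective space: every holomorphic map from the plane
with values in `X` is constant. -/
def BrodyHyperbolic {n : ℕ} (X : Set (Projectivization ℂ (Fin (n + 1) → ℂ))) : Prop :=
  ∀ φ : ℂ → Projectivization ℂ (Fin (n + 1) → ℂ), IsHolo φ → (∀ z, φ z ∈ X) →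
    ∀ z z', φ z = φ z'

/-- Every holomorphic map from a complex torus `V/Λ` to `X` is constant (such maps are the same
as `Λ`-periodic holomorphic maps on `V`); `V` is any finite-dimensional complex normed space and
`Λ` any lattice of full rank. -/
def NoTorusMaps {n : ℕ} (X : Set (Projectivization ℂ (Fin (n + 1) → ℂ))) : Prop :=
  ∀ (V : Type) [NormedAddCommGroup V] [NormedSpace ℂ V] [FiniteDimensional ℂ V]
    (Λ : Submodule ℤ V) [DiscreteTopology Λ] [IsZLattice ℝ Λ]
    (φ : V → Projectivization ℂ (Fin (n + 1) → ℂ)), IsHolo φ → (∀ z, φ z ∈ X) →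
    (∀ l ∈ Λ, ∀ z, φ (z + l) = φ z) → ∀ z z', φ z = φ z'

/-- Every polynomially parametrised curve in `X` is constant. -/
def NoRationalCurves {n : ℕ} (X : Set (Projectivization ℂ (Fin (n + 1) → ℂ))) : Prop :=
  ∀ P : Fin (n + 1) → Polynomial ℂ,
    (∀ z : ℂ, ∀ h : (fun i => (P i).eval z) ≠ 0, Projectivization.mk ℂ _ h ∈ X) →
    ∀ z z' : ℂ, ∀ (h : (fun i => (P i).eval z) ≠ 0) (h' : (fun i => (P i).eval z') ≠ 0),
      Projectivization.mk ℂ _ h = Projectivization.mk ℂ _ h'

/-- The orbit of the point `p` under the one-parameter group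
`t ↦ diag(t ^ w 0, ..., t ^ w n)` is contained in `X` and is not a point. -/
def ToricOrbitIn {n : ℕ} (X : Set (Projectivization ℂ (Fin (n + 1) → ℂ)))
    (w : Fin (n + 1) → ℕ) (p : Projectivization ℂ (Fin (n + 1) → ℂ)) : Prop :=
  (∀ t : ℂ, t ≠ 0 → ∀ h : (fun i => t ^ w i * p.rep i) ≠ 0, Projectivization.mk ℂ _ h ∈ X) ∧
    ∃ i j, p.rep i ≠ 0 ∧ p.rep j ≠ 0 ∧ w i ≠ w j

/-- The subgroup of the diagonal torus cut out by the characters in `R`. -/
def diagTorus {n : ℕ} (R : AddSubgroup (Fin (n + 1) → ℤ)) : Set (Fin (n + 1) → ℂˣ) :=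
  {t | ∀ γ ∈ R, ∏ i, t i ^ γ i = 1}

/-- `R` is saturated, that is the group of diagonal matrices `diagTorus R` is connected,
a subtorus. -/
def Saturated {n : ℕ} (R : AddSubgroup (Fin (n + 1) → ℤ)) : Prop :=
  ∀ N : ℤ, N ≠ 0 → ∀ γ : Fin (n + 1) → ℤ, N • γ ∈ R → γ ∈ R

/-- the orbit of the point `p` under the group `diagTorus R` -/
def torusOrbit {n : ℕ} (R : AddSubgroup (Fin (n + 1) → ℤ))
    (p : Projectivization ℂ (Fin (n + 1) → ℂ)) : Set (Projectivization ℂ (Fin (n + 1) → ℂ)) :=
  {q | ∃ t ∈ diagTorus R, ∃ h : (fun i => (t i : ℂ) * p.rep i) ≠ 0,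
    q = Projectivization.mk ℂ _ h}

/-- The strong form of Lang's equivalence for `X`, relative to a set `T` of subtori of the diagonal
torus (given by saturated groups of characters):
* every entire curve in `X` lies, apart from a discrete set of its points, in one orbit, contained
  in `X`, of one of the subtori in `T`;
* every nonconstant entire curve in `X` lies, apart from a discrete set of its points, in the union
  of the nonconstant orbits, contained in `X`, of some one-parameter group;
* the following are equivalent: `X` is Brody hyperbolic; `X` receives only constant holomorphic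
  maps from complex tori; `X` contains no rational curve; all orbits of the subtori in `T` that
  are contained in `X` are points; `X` contains no nonconstant orbit of a one-parameter group. -/
def StrongLang {n : ℕ} (T : Set (AddSubgroup (Fin (n + 1) → ℤ)))
    (X : Set (Projectivization ℂ (Fin (n + 1) → ℂ))) : Prop :=
  (∀ φ : ℂ → Projectivization ℂ (Fin (n + 1) → ℂ), IsHolo φ → (∀ z, φ z ∈ X) →
    ∃ R ∈ T, ∃ p, torusOrbit R p ⊆ X ∧ ∀ᶠ z in codiscrete ℂ, φ z ∈ torusOrbit R p) ∧
  (∀ φ : ℂ → Projectivization ℂ (Fin (n + 1) → ℂ), IsHolo φ → (∀ z, φ z ∈ X) →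
    (∃ z z', φ z ≠ φ z') →
      ∃ w : Fin (n + 1) → ℕ, ∀ᶠ z in codiscrete ℂ, ToricOrbitIn X w (φ z)) ∧
  List.TFAE [BrodyHyperbolic X, NoTorusMaps X, NoRationalCurves X,
    ∀ R ∈ T, ∀ p, torusOrbit R p ⊆ X → torusOrbit R p ⊆ {p},
    ∀ w p, ¬ ToricOrbitIn X w p]

end LangFC
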