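import Pool.Agent.Lib_helper59.Lang.BC
import Pool.Agent.Lib_helper59.Lang.Notions
import Pool.Agent.Lib_helper71.Lang.Weight
import Pool.Agent.Lib_helper71.Lang.Torus
import Pool.Agent.Lib_helper34.LangH1

/-! Lang's problem for Fermat covers: the proof. -/

open Complex Metric Function MeromorphicOn ValueDistribution Filter Topology

namespace LangFC

variable {n : ℕ}

lemma eval_smul_homog {F : MvPolynomial (Fin (n + 1)) ℂ} {d : ℕ} (hd : F.IsHomogeneous d) (c : ℂ)
    (x : Fin (n + 1) → ℂ) : MvPolynomial.eval (c • x) F = c ^ d * MvPolynomial.eval x F := by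
  rw [MvPolynomial.eval_eq', MvPolynomial.eval_eq', Finset.mul_sum]
  apply Finset.sum_congr rfl
  intro e he
  have h1 : ∑ i, e i = d := by
    have h2 := hd (MvPolynomial.mem_support_iff.1 he)
    rw [← h2, Finsupp.weight_apply, Finsupp.sum_fintype]
    · simp
    · simp
  have h3 : ∏ i, (c • x) i ^ e i = c ^ d * ∏ i, x i ^ e i := by
    simp only [Pi.smul_apply, smul_eq_mul, mul_pow]
    rw [Finset.prod_mul_distrib, Finset.prod_pow_eq_pow_sum, h1]
  rw [h3]; ring

/-- vector version of membership in the Fermat cover -/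
def VMem (m : ℕ) (S : Set (MvPolynomial (Fin (n + 1)) ℂ)) (v : Fin (n + 1) → ℂ) : Prop :=
  ∀ F ∈ S, MvPolynomial.eval (fun i => v i ^ m) F = 0

lemma VMem.smul {m : ℕ} {S : Set (MvPolynomial (Fin (n + 1)) ℂ)}
    (hS : ∀ F ∈ S, ∃ d, F.IsHomogeneous d) {v : Fin (n + 1) → ℂ} (h : VMem m S v) (c : ℂ) :
    VMem m S (fun i => c * v i) := by
  intro F hF
  obtain ⟨d, hd⟩ := hS F hF
  have h1 : (fun i => (c * v i) ^ m) = (c ^ m) • fun i => v i ^ m := by
    funext i
    simp [mul_pow]
  rw [h1, eval_smul_homog hd, h F hF, mul_zero]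

lemma mem_mk {m : ℕ} {S : Set (MvPolynomial (Fin (n + 1)) ℂ)}
    (hS : ∀ F ∈ S, ∃ d, F.IsHomogeneous d) {v : Fin (n + 1) → ℂ} (hv : v ≠ 0) :
    Projectivization.mk ℂ v hv ∈ fermatCover m S ↔ VMem m S v := by
  obtain ⟨a, ha⟩ := Projectivization.exists_smul_eq_mk_rep ℂ v hv
  have h1 : (Projectivization.mk ℂ v hv).rep = fun i => (a : ℂ) * v i := by
    rw [← ha]; rfl
  have h2 : v = fun i => ((a⁻¹ : ℂˣ) : ℂ) * (Projectivization.mk ℂ v hv).rep i := by
    rw [h1]; funext i; simp
  constructor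
  · intro h
    rw [h2]
    exact VMem.smul hS (v := (Projectivization.mk ℂ v hv).rep) h _
  · intro h
    change VMem m S (Projectivization.mk ℂ v hv).rep
    rw [h1]
    exact h.smul hS _

lemma vmem_closed (m : ℕ) (S : Set (MvPolynomial (Fin (n + 1)) ℂ)) :
    IsClosed {v : Fin (n + 1) → ℂ | VMem m S v} := by
  have : {v : Fin (n + 1) → ℂ | VMem m S v} =
      ⋂ F ∈ S, {v | MvPolynomial.eval (fun i => v i ^ m) F = 0} := by
    ext v; simp [VMem]
  rw [this]
  refine isClosed_biInter fun F _ => isClosed_eq ?_ continuous_const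
  exact (MvPolynomial.continuous_eval F).comp (by fun_prop)

/-- a continuous family of vectors that satisfies the equations on a dense set satisfies them
everywhere -/
lemma vmem_of_dense {m : ℕ} {S : Set (MvPolynomial (Fin (n + 1)) ℂ)} {T : Type*}
    [TopologicalSpace T] {D : Set T} (hD : Dense D) {v : T → Fin (n + 1) → ℂ} (hv : Continuous v)
    (h : ∀ t ∈ D, VMem m S (v t)) (t : T) : VMem m S (v t) := by
  have h1 : IsClosed {t | VMem m S (v t)} := (vmem_closed m S).preimage hv
  have h2 : D ⊆ {t | VMem m S (v t)} := h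
  have h3 := h1.closure_subset_iff.2 h2
  rw [hD.closure_eq] at h3
  exact h3 (Set.mem_univ t)

lemma IsHolo.comp_affine {V : Type*} [NormedAddCommGroup V] [NormedSpace ℂ V]
    {φ : V → Projectivization ℂ (Fin (n + 1) → ℂ)} (hφ : IsHolo φ) (z w : V) :
    IsHolo fun t : ℂ => φ (z + t • w) := by
  intro a
  obtain ⟨h, h1, h2⟩ := hφ (z + a • w)
  have hc : ContinuousAt (fun t : ℂ => z + t • w) a := by fun_prop
  refine ⟨fun t => h (z + t • w), ?_, ?_⟩
  · filter_upwards [hc.eventually h1] with t ht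
    exact DifferentiableAt.comp t ht (by fun_prop)
  · filter_upwards [hc.eventually h2] with t ht
    exact ht

theorem brody_noTorus {X : Set (Projectivization ℂ (Fin (n + 1) → ℂ))} (h : BrodyHyperbolic X) :
    NoTorusMaps X := by
  intro V _ _ _ Λ _ _ φ hφ hX _ z z'
  have := h _ (hφ.comp_affine z (z' - z)) (fun t => hX _) 0 1
  simpa using this

lemma ToricOrbitIn.vmem {m : ℕ} {S : Set (MvPolynomial (Fin (n + 1)) ℂ)}
    (hS : ∀ F ∈ S, ∃ d, F.IsHomogeneous d) {w : Fin (n + 1) → ℕ}
    {p : Projectivization ℂ (Fin (n + 1) → ℂ)} (h : ToricOrbitIn (fermatCover m S) w p) {t : ℂ}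
    (ht : t ≠ 0) : VMem m S (fun i => t ^ w i * p.rep i) := by
  have hne : (fun i => t ^ w i * p.rep i) ≠ 0 := by
    obtain ⟨i, -, hi, -⟩ := h.2
    intro h0
    have := congrFun h0 i
    simp only [Pi.zero_apply, mul_eq_zero] at this
    rcases this with h1 | h1
    · exact pow_ne_zero _ ht h1
    · exact hi h1
  exact (mem_mk hS hne).1 (h.1 t ht hne)

/-- a polynomial curve with values in the Fermat cover (a toric orbit) -/
theorem noRational_noToric {m : ℕ} {S : Set (MvPolynomial (Fin (n + 1)) ℂ)}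
    (hS : ∀ F ∈ S, ∃ d, F.IsHomogeneous d) (h : NoRationalCurves (fermatCover m S)) :
    ∀ w p, ¬ ToricOrbitIn (fermatCover m S) w p := by
  intro w p hp
  obtain ⟨i, j, hi, hj, hij⟩ := hp.2
  have hev : ∀ z : ℂ, (fun l => (Polynomial.C (p.rep l) * Polynomial.X ^ w l).eval z) =
      fun l => z ^ w l * p.rep l := by
    intro z; funext l
    rw [Polynomial.eval_mul, Polynomial.eval_C, Polynomial.eval_pow, Polynomial.eval_X, mul_comm]
  have hmem : ∀ z : ℂ, VMem m S (fun l => z ^ w l * p.rep l) := by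
    apply vmem_of_dense (dense_compl_singleton (0 : ℂ)) (by fun_prop)
    intro t ht
    exact hp.vmem hS ht
  have hne : ∀ z : ℂ, z ≠ 0 → (fun l => (Polynomial.C (p.rep l) * Polynomial.X ^ w l).eval z) ≠ 0 := by
    intro z hz h0
    have := congrFun h0 i
    simp [hi, hz] at this
  have h1 := h (fun l => Polynomial.C (p.rep l) * Polynomial.X ^ w l) (fun z hz => by
    rw [mem_mk hS hz, hev z]
    exact hmem z) 1 2 (hne 1 one_ne_zero) (hne 2 two_ne_zero)
  rw [Projectivization.mk_eq_mk_iff'] at h1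
  obtain ⟨a, ha⟩ := h1
  have h2 := congrFun ha i
  have h3 := congrFun ha j
  simp only [Pi.smul_apply, smul_eq_mul, Polynomial.eval_mul, Polynomial.eval_C,
    Polynomial.eval_pow, Polynomial.eval_X, one_pow, mul_one] at h2 h3
  have h4 : a * 2 ^ w i = 1 := by
    have := mul_left_cancel₀ hi (show p.rep i * (a * 2 ^ w i) = p.rep i * 1 by rw [mul_one]; linear_combination h2)
    exact this
  have h5 : a * 2 ^ w j = 1 := by
    have := mul_left_cancel₀ hj (show p.rep j * (a * 2 ^ w j) = p.rep j * 1 by rw [mul_one]; linear_combination h3)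
    exact this
  have h6 : (2 : ℂ) ^ w i = 2 ^ w j := by
    have ha0 : a ≠ 0 := by
      rintro rfl
      rw [zero_mul] at h4
      exact zero_ne_one h4
    exact mul_left_cancel₀ ha0 (h4.trans h5.symm)
  have h7 : (2 : ℕ) ^ w i = 2 ^ w j := by exact_mod_cast h6
  exact hij (Nat.pow_right_injective le_rfl h7)

theorem brody_noRational {m : ℕ} {S : Set (MvPolynomial (Fin (n + 1)) ℂ)}
    (hS : ∀ F ∈ S, ∃ d, F.IsHomogeneous d) (h : BrodyHyperbolic (fermatCover m S)) :
    NoRationalCurves (fermatCover m S) := by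
  classical
  intro P hP z z' hz hz'
  -- divide by the greatest common divisor
  obtain ⟨g, hg⟩ := IsPrincipalIdealRing.principal (Ideal.span (Set.range P))
  have hg' : Ideal.span (Set.range P) = Ideal.span {g} := hg
  have hdiv : ∀ i, g ∣ P i := by
    intro i
    rw [← Ideal.mem_span_singleton, ← hg']
    exact Ideal.subset_span ⟨i, rfl⟩
  choose Q hQ using hdiv
  have hg0 : g ≠ 0 := by
    rintro rfl
    apply hz
    funext i
    simp [hQ i]
  obtain ⟨R, hR⟩ : ∃ R : Fin (n + 1) → Polynomial ℂ, ∑ i, R i * P i = g := by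
    have : g ∈ Ideal.span (Set.range P) := by
      rw [hg']; exact Ideal.mem_span_singleton_self g
    rw [Ideal.mem_span_range_iff_exists_fun] at this
    exact this
  have hRQ : ∑ i, R i * Q i = 1 := by
    apply mul_left_cancel₀ hg0
    rw [mul_one, Finset.mul_sum]
    conv_rhs => rw [← hR]
    apply Finset.sum_congr rfl
    intro i _
    rw [hQ i]; ring
  have hQne : ∀ z : ℂ, (fun i => (Q i).eval z) ≠ 0 := by
    intro z h0
    have h1 := congrArg (Polynomial.eval z) hRQ
    rw [Polynomial.eval_finsetSum] at h1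
    have h2 : ∀ i, (Q i).eval z = 0 := fun i => congrFun h0 i
    simp [h2] at h1
  have hPQ : ∀ z i, (P i).eval z = g.eval z * (Q i).eval z := by
    intro z i; rw [hQ i, Polynomial.eval_mul]
  have hVM : ∀ z : ℂ, VMem m S (fun i => (Q i).eval z) := by
    have hdense : Dense {z : ℂ | g.eval z ≠ 0} := by
      have : {z : ℂ | g.eval z ≠ 0} = ((g.rootSet ℂ)ᶜ : Set ℂ) := by
        ext x
        simp [Polynomial.mem_rootSet, hg0]
      rw [this]
      exact (Set.Finite.countable (g.rootSet_finite ℂ)).dense_compl ℝ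
    apply vmem_of_dense hdense
    · exact continuous_pi fun i => (Q i).continuous
    · intro z hz
      have hne : (fun i => (P i).eval z) ≠ 0 := by
        intro h0
        apply hQne z
        funext i
        have := congrFun h0 i
        simp only [Pi.zero_apply, hPQ] at this
        exact (mul_eq_zero.1 this).resolve_left hz
      have h1 := (mem_mk hS hne).1 (hP z hne)
      have h2 : (fun i => (Q i).eval z) = fun i => (g.eval z)⁻¹ * (P i).eval z := by
        funext i
        have : g.eval z ≠ 0 := hz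
        rw [hPQ]; field_simp
      rw [h2]
      exact h1.smul hS _
  have hψ : IsHolo fun z : ℂ => Projectivization.mk ℂ (fun i => (Q i).eval z) (hQne z) := by
    intro a
    refine ⟨fun z i => (Q i).eval z, Eventually.of_forall fun z => ?_,
      Eventually.of_forall fun z => ⟨hQne z, rfl⟩⟩
    exact differentiableAt_pi.2 fun i => (Q i).differentiable.differentiableAt
  have h1 := h _ hψ (fun z => (mem_mk hS (hQne z)).2 (hVM z)) z z'
  have h2 : ∀ z (hz : (fun i => (P i).eval z) ≠ 0), Projectivization.mk ℂ _ hz =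
      Projectivization.mk ℂ (fun i => (Q i).eval z) (hQne z) := by
    intro z hz
    rw [Projectivization.mk_eq_mk_iff']
    refine ⟨g.eval z, ?_⟩
    funext i
    simp [hPQ]
  rw [h2 z hz, h2 z' hz']
  exact h1

/-- toric orbits give maps from elliptic curves -/
theorem noTorus_noToric {m : ℕ} {S : Set (MvPolynomial (Fin (n + 1)) ℂ)}
    (hS : ∀ F ∈ S, ∃ d, F.IsHomogeneous d) (h : NoTorusMaps (fermatCover m S)) :
    ∀ w p, ¬ ToricOrbitIn (fermatCover m S) w p := by
  classical
  intro w p hp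
  obtain ⟨i₀, j₀, hi₀, hj₀, hij⟩ := hp.2
  -- the support and the extreme weights
  let T : Finset (Fin (n + 1)) := Finset.univ.filter fun i => p.rep i ≠ 0
  have hT : ∀ i, i ∈ T ↔ p.rep i ≠ 0 := by intro i; simp [T]
  have hTne : T.Nonempty := ⟨i₀, (hT _).2 hi₀⟩
  obtain ⟨a, haT, ha⟩ := T.exists_min_image w hTne
  obtain ⟨b, hbT, hb⟩ := T.exists_max_image w hTne
  have hab : w a < w b := by
    have h1 := ha i₀ ((hT _).2 hi₀)
    have h2 := ha j₀ ((hT _).2 hj₀)
    have h3 := hb i₀ ((hT _).2 hi₀)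
    have h4 := hb j₀ ((hT _).2 hj₀)
    omega
  let W := w b - w a
  let w' : Fin (n + 1) → ℕ := fun i => if i ∈ T then w i - w a else 0
  have hw'T : ∀ i, i ∈ T → w' i = w i - w a := fun i hi => by simp [w', hi]
  have hw'W : ∀ i, w' i ≤ W := by
    intro i
    by_cases hi : i ∈ T
    · rw [hw'T i hi]
      have := hb i hi
      simp only [W]; omega
    · simp [w', hi]
  have hmem : ∀ x : ℂ × ℂ, VMem m S (fun i => x.1 ^ w' i * x.2 ^ (W - w' i) * p.rep i) := by
    have hD : Dense (({0}ᶜ : Set ℂ) ×ˢ ({0}ᶜ : Set ℂ)) :=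
      (dense_compl_singleton (0 : ℂ)).prod (dense_compl_singleton (0 : ℂ))
    apply vmem_of_dense hD (by fun_prop)
    rintro ⟨s, t⟩ ⟨hs, ht⟩
    have hs' : s ≠ 0 := hs
    have ht' : t ≠ 0 := ht
    have h1 := (hp.vmem hS (div_ne_zero hs' ht')).smul hS (t ^ W * (s / t)⁻¹ ^ w a)
    have h2 : (fun i => s ^ w' i * t ^ (W - w' i) * p.rep i) =
        fun i => t ^ W * (s / t)⁻¹ ^ w a * ((s / t) ^ w i * p.rep i) := by
      funext i
      by_cases hi : i ∈ T
      · have h3 : w i = w' i + w a := by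
          rw [hw'T i hi]
          have := ha i hi
          omega
        have h4 : W = (W - w' i) + w' i := by
          have := hw'W i
          omega
        set q : ℂ := s / t with hq
        have hs2 : s = q * t := by rw [hq]; field_simp
        have hq0 : q ≠ 0 := by rw [hq]; exact div_ne_zero hs' ht'
        have h5 : q⁻¹ ^ w a * q ^ w a = 1 := by rw [← mul_pow, inv_mul_cancel₀ hq0, one_pow]
        have h6 : t ^ W = t ^ (W - w' i) * t ^ w' i := by rw [← pow_add, ← h4]
        rw [h3, hs2, h6, pow_add, mul_pow]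
        linear_combination (-(t ^ (W - w' i) * t ^ w' i * q ^ w' i * p.rep i)) * h5
      · have : p.rep i = 0 := by
          by_contra h5
          exact hi ((hT i).2 h5)
        simp [this]
    simp only
    rw [h2]
    exact h1
  let L : PeriodPair := ⟨1, Complex.I, by
    have : ![(1 : ℂ), Complex.I] = Complex.basisOneI := by
      funext i; fin_cases i <;> simp
    rw [this]
    exact Complex.basisOneI.linearIndependent⟩
  obtain ⟨φ, h1, h2, h3, z, z', h4⟩ := exists_torus_proof (fermatCover m S) p.rep w' W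
    (by simp only [W]; omega) hw'W ⟨a, (hT a).1 haT, by rw [hw'T a haT]; simp⟩
    ⟨b, (hT b).1 hbT, by rw [hw'T b hbT]⟩
    (fun s t hst => (mem_mk hS hst).2 (hmem (s, t))) L
  exact h4 (h ℂ L.lattice φ h1 h2 h3 z z')

theorem bc_of {k m : ℕ} (hm : k * (k - 2) < m) : BlockG.BC k m := by
  intro q hq G hG c hc hsum
  refine borel_cartan_proof (lt_of_le_of_lt ?_ hm) G hG c hc hsum
  exact Nat.mul_le_mul hq (by omega)

/-- every nonconstant entire curve in a Fermat cover is covered by toric rational curves -/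
theorem structure_thm {k m : ℕ} {S : Set (MvPolynomial (Fin (n + 1)) ℂ)}
    (hS : ∀ F ∈ S, ∃ d, F.IsHomogeneous d) (hk : ∀ F ∈ S, F.support.card ≤ k)
    (hm : k * (k - 2) < m) (φ : ℂ → Projectivization ℂ (Fin (n + 1) → ℂ)) (hφ : IsHolo φ)
    (hX : ∀ z, φ z ∈ fermatCover m S) (hnc : ∃ z z', φ z ≠ φ z') :
    ∃ w : Fin (n + 1) → ℕ, ∀ᶠ z in codiscrete ℂ, ToricOrbitIn (fermatCover m S) w (φ z) := by
  obtain ⟨I, u, hu, hu0, hrep, hconst⟩ := exists_ratios_pr φ hφ
  have hvan : ∀ F ∈ S, ∀ z, (∀ i ∈ I, dv (u i) z = 0) →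
      MvPolynomial.eval (fun i => u i z ^ m) F = 0 := by
    intro F hF z hz
    obtain ⟨h1, h2⟩ := hrep z hz
    have h3 := hX z
    rw [h2, mem_mk hS h1] at h3
    exact h3 F hF
  have hnc' : ∃ i ∈ I, ∃ j ∈ I, ¬ ∃ e : ℂ, ∀ z, (∀ i ∈ I, dv (u i) z = 0) →
      u i z = e * u j z := by
    by_contra hcon
    push Not at hcon
    obtain ⟨z, z', hzz⟩ := hnc
    exact hzz (hconst (fun i hi j hj => hcon i hi j hj) z z')
  obtain ⟨w, W, hW, hwW, ⟨i, hi, hwi⟩, ⟨j, hj, hwj⟩, hw⟩ :=
    exists_weight_proof (lt_of_le_of_lt (Nat.zero_le _) hm) (bc_of hm) I u hu hu0 S hS hk hvan hnc'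
  refine ⟨w, ?_⟩
  have hev : ∀ᶠ z in codiscrete ℂ, ∀ i ∈ I, dv (u i) z = 0 := by
    rw [Filter.eventually_all_finset]
    exact fun i hi => (hu i hi).codiscrete_dv
  filter_upwards [hev] with z hz
  obtain ⟨h1, h2⟩ := hrep z hz
  obtain ⟨a, ha⟩ := Projectivization.exists_smul_eq_mk_rep ℂ _ h1
  have hrepz : (φ z).rep = fun i => (a : ℂ) * u i z := by
    rw [h2, ← ha]; rfl
  refine ⟨fun t ht h => ?_, i, j, ?_, ?_, ?_⟩
  · rw [mem_mk hS h]
    have h3 : VMem m S (fun i => t ^ w i * 1 ^ (W - w i) * u i z) := fun F hF => hw F hF z hz t 1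
    have h4 : (fun i => t ^ w i * (φ z).rep i) =
        fun i => (a : ℂ) * (t ^ w i * 1 ^ (W - w i) * u i z) := by
      funext i
      rw [hrepz]
      simp only [one_pow, mul_one]
      ring
    rw [h4]
    exact h3.smul hS _
  · rw [hrepz]
    exact mul_ne_zero a.ne_zero ((hu i hi).ne_zero (hz i hi))
  · rw [hrepz]
    exact mul_ne_zero a.ne_zero ((hu j hj).ne_zero (hz j hj))
  · omega

end LangFC
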