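import Mathlib

/-! Definitions for the Borel-Cartan theorem for sums of `m`-th powers of meromorphic functions
and its application to Lang's problem for Fermat covers (MP_45e720_ag). -/

open Complex Metric Function MeromorphicOn

namespace LangFC

/-- everywhere meromorphic (in normal form) on the plane and nowhere locally zero -/
structure Nice (f : ℂ → ℂ) : Prop where
  nf : ∀ z, MeromorphicNFAt f z
  ord : ∀ z, meromorphicOrderAt f z ≠ ⊤

lemma Nice.meromorphic {f : ℂ → ℂ} (hf : Nice f) : Meromorphic f :=
  fun z => (hf.nf z).meromorphicAt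

/-- the divisor of a meromorphic function on the plane -/
noncomputable abbrev dv (f : ℂ → ℂ) : locallyFinsuppWithin (Set.univ : Set ℂ) ℤ :=
  MeromorphicOn.divisor f Set.univ

/-- Wronskian of `p` functions -/
noncomputable def wr {p : ℕ} (F : Fin p → ℂ → ℂ) (z : ℂ) : ℂ :=
  Matrix.det (Matrix.of fun i j : Fin p => iteratedDeriv (i : ℕ) (F j) z)

/-- holomorphic map from a complex normed space to the projective space of dimension `n`:
near each point it is given by holomorphic homogeneous coordinates without common zero -/
def IsHolo {E : Type*} [NormedAddCommGroup E] [NormedSpace ℂ E] {n : ℕ}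
    (φ : E → Projectivization ℂ (Fin (n + 1) → ℂ)) : Prop :=
  ∀ a : E, ∃ h : E → Fin (n + 1) → ℂ, (∀ᶠ z in nhds a, DifferentiableAt ℂ h z) ∧
    ∀ᶠ z in nhds a, ∃ hz : h z ≠ 0, φ z = Projectivization.mk ℂ (h z) hz

/-- The Fermat cover of order `m` of the projective variety defined by the homogeneous
polynomials of `S`. -/
def fermatCover {n : ℕ} (m : ℕ) (S : Set (MvPolynomial (Fin (n + 1)) ℂ)) :
    Set (Projectivization ℂ (Fin (n + 1) → ℂ)) :=
  {p | ∀ F ∈ S, MvPolynomial.eval (fun i => p.rep i ^ m) F = 0}

end LangFC
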