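import Pool.Agent.Lib_helper59.Lang.Bdd

open Complex Metric Function MeromorphicOn ValueDistribution Filter Topology

namespace LangFC

lemma nice_const {c : ℂ} (hc : c ≠ 0) : Nice (fun _ => c) where
  nf := fun _ => analyticAt_const.meromorphicNFAt
  ord := fun z => by
    rw [(analyticAt_const.meromorphicNFAt).meromorphicOrderAt_eq_zero_iff.2 hc]
    simp

lemma dv_const {c : ℂ} (z : ℂ) : dv (fun _ => c) z = 0 := by
  rw [MeromorphicOn.divisor_apply (fun x _ => MeromorphicAt.const c x) (Set.mem_univ z)]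
  classical
  rw [meromorphicOrderAt_const]
  split_ifs <;> simp

lemma Nice.pow {f : ℂ → ℂ} (hf : Nice f) (m : ℕ) : Nice (fun z => f z ^ m) where
  nf := fun z => by
    have := (hf.nf z).zpow (n := (m : ℤ))
    have e : (fun z => f z ^ m) = f ^ (m : ℤ) := by
      funext x; simp
    rw [e]; exact this
  ord := fun z => by
    rw [fun_meromorphicOrderAt_pow (hf.meromorphic z), hf.order_eq z]
    intro h
    have : ((m : ℤ) : WithTop ℤ) * ((dv f z : ℤ) : WithTop ℤ) = (((m : ℤ) * dv f z : ℤ) : WithTop ℤ) := by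
      push_cast; rfl
    rw [show ((m : WithTop ℤ)) = ((m : ℤ) : WithTop ℤ) from rfl, this] at h
    exact WithTop.coe_ne_top h

lemma Nice.dv_pow {f : ℂ → ℂ} (hf : Nice f) (m : ℕ) (z : ℂ) :
    dv (fun z => f z ^ m) z = m * dv f z := by
  have h1 := (hf.pow m).order_eq z
  rw [fun_meromorphicOrderAt_pow (hf.meromorphic z), hf.order_eq z] at h1
  have : ((m : ℤ) : WithTop ℤ) * ((dv f z : ℤ) : WithTop ℤ) = (((m : ℤ) * dv f z : ℤ) : WithTop ℤ) := by
    push_cast; rfl
  rw [show ((m : WithTop ℤ)) = ((m : ℤ) : WithTop ℤ) from rfl, this] at h1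
  exact (WithTop.coe_eq_coe.1 h1).symm

/-- normal form of a meromorphic function on the plane -/
noncomputable def nfOf (f : ℂ → ℂ) : ℂ → ℂ := toMeromorphicNFOn f Set.univ

lemma nfOf_eventuallyEq {f : ℂ → ℂ} (hf : Meromorphic f) (a : ℂ) :
    nfOf f =ᶠ[𝓝[≠] a] f :=
  MeromorphicOn.toMeromorphicNFOn_eq_self_on_nhdsNE (f := f) (U := Set.univ)
    (fun x _ => hf x) (Set.mem_univ a)

lemma nice_nfOf {f : ℂ → ℂ} (hf : Meromorphic f) (h : ∀ z, meromorphicOrderAt f z ≠ ⊤) :
    Nice (nfOf f) where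
  nf := fun z => meromorphicNFOn_toMeromorphicNFOn f Set.univ (Set.mem_univ z)
  ord := fun z => by
    rw [meromorphicOrderAt_congr (nfOf_eventuallyEq hf z)]
    exact h z

/-- two nice functions that agree near `a` (punctured) agree everywhere -/
lemma Nice.eq_of_eventuallyEq {f g : ℂ → ℂ} (hf : Nice f) (hg : Nice g) {a : ℂ}
    (h : f =ᶠ[𝓝[≠] a] g) : f = g := by
  have hfg : Meromorphic (fun z => f z - g z) := fun z => (hf.meromorphic z).sub (hg.meromorphic z)
  have h1 : meromorphicOrderAt (fun z => f z - g z) a = ⊤ := by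
    rw [meromorphicOrderAt_eq_top_iff]
    filter_upwards [h] with x hx
    rw [hx, sub_self]
  funext z
  have h2 := order_top_all hfg h1 z
  rw [meromorphicOrderAt_eq_top_iff] at h2
  have h3 : f =ᶠ[𝓝[≠] z] g := by
    filter_upwards [h2] with x hx
    exact sub_eq_zero.1 hx
  exact (((hf.nf z).eventuallyEq_nhdsNE_iff_eventuallyEq_nhds (hg.nf z)).1 h3).eq_of_nhds

/-- the normal form of `c f / g` -/
noncomputable def ratio (f g : ℂ → ℂ) (c : ℂ) : ℂ → ℂ := nfOf fun z => c * f z / g z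

lemma ratio_mero {f g : ℂ → ℂ} (hf : Nice f) (hg : Nice g) (c : ℂ) :
    Meromorphic fun z => c * f z / g z :=
  fun z => ((MeromorphicAt.const c z).mul (hf.meromorphic z)).div (hg.meromorphic z)

lemma ratio_order {f g : ℂ → ℂ} (hf : Nice f) (hg : Nice g) {c : ℂ} (hc : c ≠ 0) (z : ℂ) :
    meromorphicOrderAt (fun z => c * f z / g z) z = ((dv f z - dv g z : ℤ) : WithTop ℤ) := by
  have h1 : meromorphicOrderAt (fun z => c * f z) z = meromorphicOrderAt f z := by
    rw [fun_meromorphicOrderAt_mul (MeromorphicAt.const c z) (hf.meromorphic z)]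
    have : meromorphicOrderAt (fun _ : ℂ => c) z = 0 := by
      classical
      rw [meromorphicOrderAt_const, if_neg hc]
    rw [this, zero_add]
  rw [fun_meromorphicOrderAt_div (f := fun z => c * f z)
    ((MeromorphicAt.const c z).mul (hf.meromorphic z)) (hg.meromorphic z)]
  have h2 : meromorphicOrderAt (fun z => c * f z) z = ((dv f z : ℤ) : WithTop ℤ) := by
    rw [h1, hf.order_eq z]
  rw [hg.order_eq z]
  change meromorphicOrderAt (fun z => c * f z) z - _ = _
  rw [h2]
  rfl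

lemma nice_ratio {f g : ℂ → ℂ} (hf : Nice f) (hg : Nice g) {c : ℂ} (hc : c ≠ 0) :
    Nice (ratio f g c) :=
  nice_nfOf (ratio_mero hf hg c) fun z => by
    rw [ratio_order hf hg hc z]; exact WithTop.coe_ne_top

lemma dv_ratio {f g : ℂ → ℂ} (hf : Nice f) (hg : Nice g) {c : ℂ} (hc : c ≠ 0) (z : ℂ) :
    dv (ratio f g c) z = dv f z - dv g z := by
  have h1 := (nice_ratio hf hg hc).order_eq z
  rw [show meromorphicOrderAt (ratio f g c) z = meromorphicOrderAt (fun z => c * f z / g z) z from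
    meromorphicOrderAt_congr (nfOf_eventuallyEq (ratio_mero hf hg c) z), ratio_order hf hg hc z] at h1
  exact (WithTop.coe_eq_coe.1 h1).symm

lemma ratio_eventuallyEq {f g : ℂ → ℂ} (hf : Nice f) (hg : Nice g) (c : ℂ) (a : ℂ) :
    ratio f g c =ᶠ[𝓝[≠] a] fun z => c * f z / g z :=
  nfOf_eventuallyEq (ratio_mero hf hg c) a

lemma ratio_apply {f g : ℂ → ℂ} (hf : Nice f) (hg : Nice g) {c : ℂ} (hc : c ≠ 0) {z : ℂ}
    (hfz : dv f z = 0) (hgz : dv g z = 0) : ratio f g c z = c * f z / g z := by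
  have h1 : AnalyticAt ℂ (fun z => c * f z / g z) z :=
    (analyticAt_const.mul (hf.analyticAt hfz.ge)).div (hg.analyticAt hgz.ge) (hg.ne_zero hgz)
  have h2 := (((nice_ratio hf hg hc).nf z).eventuallyEq_nhdsNE_iff_eventuallyEq_nhds
    h1.meromorphicNFAt).1 (ratio_eventuallyEq hf hg c z)
  exact h2.eq_of_nhds

/-- A meromorphic relation that holds near one point holds at all points where the functions are
analytic. -/
lemma relation_everywhere {S : ℂ → ℂ} (hS : Meromorphic S) {a : ℂ}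
    (ha : ∀ᶠ z in 𝓝[≠] a, S z = 0) {z : ℂ} (hz : ContinuousAt S z) : S z = 0 := by
  have h1 : meromorphicOrderAt S a = ⊤ := meromorphicOrderAt_eq_top_iff.2 ha
  have h2 := meromorphicOrderAt_eq_top_iff.1 (order_top_all hS h1 z)
  have h3 : Tendsto S (𝓝[≠] z) (𝓝 (S z)) := hz.tendsto.mono_left nhdsWithin_le_nhds
  have h4 : Tendsto S (𝓝[≠] z) (𝓝 0) := by
    apply tendsto_const_nhds.congr'
    filter_upwards [h2] with x hx
    exact hx.symm
  exact tendsto_nhds_unique h3 h4

lemma eventually_ne_of_codiscrete {P : ℂ → Prop} (h : ∀ᶠ z in codiscrete ℂ, P z) (a : ℂ) :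
    ∀ᶠ z in 𝓝[≠] a, P z := by
  have := mem_codiscrete.1 h a
  rwa [Filter.disjoint_principal_right, compl_compl] at this

lemma eventually_good {ι : Type*} (I : Finset ι) (u : ι → ℂ → ℂ)
    (hu : ∀ i ∈ I, Nice (u i)) (a : ℂ) : ∀ᶠ z in 𝓝[≠] a, ∀ i ∈ I, dv (u i) z = 0 := by
  apply eventually_ne_of_codiscrete
  rw [Filter.eventually_all_finset]
  exact fun i hi => (hu i hi).codiscrete_dv

end LangFC
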