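import Pool.Agent.Lib_helper59.Lang.Cover

/-! Structure of entire curves in Fermat covers: they lie in orbits of subtori. -/

open Complex Metric Function MeromorphicOn ValueDistribution Filter Topology

namespace LangFC

variable {n : ℕ}

open BlockG

/-- the relation group is saturated -/
lemma relGroup_saturated (I : Finset (Fin (n + 1))) (u : Fin (n + 1) → ℂ → ℂ)
    (hu : ∀ i ∈ I, Nice (u i)) {N : ℤ} (hN : N ≠ 0) {γ : Fin (n + 1) → ℤ}
    (h : N • γ ∈ relGroup I u hu) : γ ∈ relGroup I u hu := by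
  obtain ⟨h1, h2, e, he, h3⟩ := h
  refine ⟨fun i hi => ?_, ?_, ?_⟩
  · have := h1 i hi
    simp only [Pi.smul_apply, smul_eq_mul] at this
    exact (mul_eq_zero.1 this).resolve_left hN
  · simp only [Pi.smul_apply, smul_eq_mul, ← Finset.mul_sum] at h2
    exact (mul_eq_zero.1 h2).resolve_left hN
  · -- the monomial has a constant power
    set g := Mon I u γ with hg
    have hgN : Nice g := nice_mon I hu γ
    have hpow : ∀ z, (∀ i ∈ I, dv (u i) z = 0) → g z ^ N = e := by
      intro z hz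
      rw [hg, mon_apply I hu γ hz, ← h3 z hz, ← Finset.prod_zpow]
      apply Finset.prod_congr rfl
      intro i _
      rw [← zpow_mul, mul_comm]
      simp
    -- natural exponent
    obtain ⟨M, hM, e', hpow'⟩ : ∃ M : ℕ, 0 < M ∧ ∃ e' : ℂ,
        ∀ z, (∀ i ∈ I, dv (u i) z = 0) → g z ^ M = e' := by
      refine ⟨N.natAbs, Int.natAbs_pos.2 hN, ?_⟩
      rcases lt_or_gt_of_ne hN with h4 | h4
      · refine ⟨e⁻¹, fun z hz => ?_⟩
        rw [← hpow z hz, ← zpow_natCast, ← zpow_neg]
        congr 1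
        omega
      · refine ⟨e, fun z hz => ?_⟩
        rw [← hpow z hz, ← zpow_natCast]
        congr 1
        omega
    have hext : ∀ z, dv g z = 0 → g z ^ M = e' := by
      intro z hz
      have h4 : AnalyticAt ℂ (fun z => g z ^ M - e') z :=
        ((hgN.analyticAt hz.ge).pow M).sub analyticAt_const
      have h5 : ∀ᶠ y in 𝓝[≠] z, (fun z => g z ^ M - e') y = 0 := by
        filter_upwards [BlockG.eventually_good I hu z] with y hy
        simp [hpow' y hy]
      exact sub_eq_zero.1 (h4.frequently_zero_iff_eventually_zero.1 h5.frequently).self_of_nhds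
    let u' : Fin (1 + 1) → ℂ → ℂ := ![g, fun _ => 1]
    have hu' : ∀ i ∈ (Finset.univ : Finset (Fin (1 + 1))), Nice (u' i) := by
      intro i _
      fin_cases i
      · exact hgN
      · exact nice_const one_ne_zero
    obtain ⟨c, hc⟩ := const_of_pow_const Finset.univ u' hu' (Finset.mem_univ 0)
      (Finset.mem_univ 1) hM (e := e') (by
        intro z hz
        have h4 : dv g z = 0 := hz 0 (Finset.mem_univ _)
        have h5 := hext z h4
        simpa [u'] using h5)
    have hc' : ∀ z, (∀ i ∈ I, dv (u i) z = 0) → ∏ i ∈ I, u i z ^ γ i = c := by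
      intro z hz
      have h4 := hc z (by
        intro i _
        fin_cases i
        · exact dv_mon I hu γ hz
        · exact dv_const z)
      rw [← mon_apply I hu γ hz]
      simpa [u'] using h4
    refine ⟨c, ?_, hc'⟩
    rintro rfl
    obtain ⟨z0, hz0⟩ := exists_good I hu
    have h4 := hc' z0 hz0
    rw [Finset.prod_eq_zero_iff] at h4
    obtain ⟨i, hi, h5⟩ := h4
    exact zpow_ne_zero _ ((hu i hi).ne_zero (hz0 i hi)) h5

/-- main vanishing statement: multiplying the coordinates of the curve by constants that respect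
the multiplicative relations between the monomials -/
theorem orbit_vanish {k m : ℕ} (hm : 0 < m) (hBC : BC k m)
    (I : Finset (Fin (n + 1))) (u : Fin (n + 1) → ℂ → ℂ) (hu : ∀ i ∈ I, Nice (u i))
    (hu0 : ∀ i, i ∉ I → ∀ z, u i z = 0)
    (F : MvPolynomial (Fin (n + 1)) ℂ) {d : ℕ} (hd : F.IsHomogeneous d)
    (hk : F.support.card ≤ k)
    (hvan : ∀ z, (∀ i ∈ I, dv (u i) z = 0) → MvPolynomial.eval (fun i => u i z ^ m) F = 0)
    (r : Fin (n + 1) → ℂ)
    (hr : ∀ α ∈ F.support, ∀ β ∈ F.support,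
      (fun i => (α i : ℤ) - β i) ∈ relGroup I u hu → ∏ i ∈ I, r i ^ α i = ∏ i ∈ I, r i ^ β i)
    (z : ℂ) (hz : ∀ i ∈ I, dv (u i) z = 0) :
    MvPolynomial.eval (fun i => (r i * u i z) ^ m) F = 0 := by
  classical
  let A : Finset (Fin (n + 1) →₀ ℕ) := F.support.filter (fun α => α.support ⊆ I)
  have hAk : A.card ≤ k := (Finset.card_filter_le _ _).trans hk
  let N : (Fin (n + 1) →₀ ℕ) → ℂ → ℂ := fun α => Mon I u (fun i => (α i : ℤ))
  have hN : ∀ α, Nice (N α) := fun α => nice_mon I hu _
  have hNapp : ∀ z, (∀ i ∈ I, dv (u i) z = 0) → ∀ α, N α z = ∏ i ∈ I, u i z ^ α i := by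
    intro z hz α
    simp only [N]
    rw [mon_apply I hu _ hz]
    simp only [zpow_natCast]
  -- evaluation formula
  have heval : ∀ (r : Fin (n + 1) → ℂ) (z : ℂ), (∀ i ∈ I, dv (u i) z = 0) →
      MvPolynomial.eval (fun i => (r i * u i z) ^ m) F =
        ∑ α ∈ A, (∏ i ∈ I, r i ^ α i) ^ m * (F.coeff α * N α z ^ m) := by
    intro r z hz
    rw [MvPolynomial.eval_eq']
    rw [← Finset.sum_filter_add_sum_filter_not F.support (fun α => α.support ⊆ I)]
    have h2 : ∑ α ∈ F.support.filter (fun α => ¬ α.support ⊆ I),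
        F.coeff α * ∏ i, ((r i * u i z) ^ m) ^ α i = 0 := by
      apply Finset.sum_eq_zero
      intro α hα
      rw [Finset.mem_filter, Finset.not_subset] at hα
      obtain ⟨i, hi, hiI⟩ := hα.2
      rw [Finsupp.mem_support_iff] at hi
      rw [Finset.prod_eq_zero (Finset.mem_univ i), mul_zero]
      rw [hu0 i hiI z, mul_zero, zero_pow hm.ne', zero_pow hi]
    rw [h2, add_zero]
    apply Finset.sum_congr rfl
    intro α hα
    rw [Finset.mem_filter] at hα
    have h3 : ∏ i, ((r i * u i z) ^ m) ^ α i = ∏ i ∈ I, ((r i * u i z) ^ m) ^ α i := by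
      symm
      apply Finset.prod_subset (Finset.subset_univ I)
      intro i _ hi
      have : α i = 0 := by
        by_contra h
        exact hi (hα.2 (Finsupp.mem_support_iff.2 h))
      rw [this, pow_zero]
    rw [h3, hNapp z hz, ← Finset.prod_pow, ← Finset.prod_pow]
    rw [mul_left_comm, ← Finset.prod_mul_distrib]
    congr 1
    apply Finset.prod_congr rfl
    intro i _
    rw [← pow_mul, ← pow_mul, ← pow_mul, mul_pow, mul_comm m]
  have hmain := merge hBC N hN (fun z => ∀ i ∈ I, dv (u i) z = 0) (BlockG.eventually_good I hu)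
    (fun z hz α => dv_mon I hu _ hz)
    (fun α => (∏ i ∈ I, r i ^ α i) ^ m) A.card A rfl hAk
    (fun α => F.coeff α) ?_ ?_ z hz
  · rw [heval r z hz]
    exact hmain
  · -- constant on related pairs
    rintro α hα β hβ ⟨e, he, hrel⟩
    rw [Finset.mem_filter] at hα hβ
    have hdα : ∑ i, α i = d := by
      have := hd (MvPolynomial.mem_support_iff.1 hα.1)
      rw [Finsupp.weight_apply, Finsupp.sum_fintype] at this
      · simpa using this
      · intro i; simp
    have hdβ : ∑ i, β i = d := by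
      have := hd (MvPolynomial.mem_support_iff.1 hβ.1)
      rw [Finsupp.weight_apply, Finsupp.sum_fintype] at this
      · simpa using this
      · intro i; simp
    have hα0 : ∀ i, i ∉ I → α i = 0 := by
      intro i hi
      by_contra h
      exact hi (hα.2 (Finsupp.mem_support_iff.2 h))
    have hβ0 : ∀ i, i ∉ I → β i = 0 := by
      intro i hi
      by_contra h
      exact hi (hβ.2 (Finsupp.mem_support_iff.2 h))
    have hγ : (fun i => (α i : ℤ) - β i) ∈ relGroup I u hu := by
      refine ⟨fun i hi => by simp [hα0 i hi, hβ0 i hi], ?_, e, he, ?_⟩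
      · rw [Finset.sum_sub_distrib]
        have h1 : ∑ i, (α i : ℤ) = d := by exact_mod_cast hdα
        have h2 : ∑ i, (β i : ℤ) = d := by exact_mod_cast hdβ
        rw [h1, h2, sub_self]
      · intro z hz
        have h1 := hrel z hz
        rw [hNapp z hz, hNapp z hz] at h1
        have h2 : ∏ i ∈ I, u i z ^ β i ≠ 0 := by
          rw [Finset.prod_ne_zero_iff]
          intro i hi
          exact pow_ne_zero _ (ne_zero_of_dv (hu i hi) (hz i hi))
        have h3 : ∏ i ∈ I, u i z ^ ((α i : ℤ) - β i) =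
            (∏ i ∈ I, u i z ^ α i) / ∏ i ∈ I, u i z ^ β i := by
          rw [← Finset.prod_div_distrib]
          apply Finset.prod_congr rfl
          intro i hi
          rw [zpow_sub₀ (ne_zero_of_dv (hu i hi) (hz i hi)), zpow_natCast, zpow_natCast]
        rw [h3, h1, mul_div_assoc, div_self h2, mul_one]
    rw [hr α hα.1 β hβ.1 hγ]
  · intro z hz
    have h1 := heval (fun _ => 1) z hz
    simp only [one_pow, Finset.prod_const_one, one_mul] at h1
    rw [← h1]
    exact hvan z hz

/-- saturation of the subgroup generated by `D` -/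
def satur (D : Set (Fin (n + 1) → ℤ)) : AddSubgroup (Fin (n + 1) → ℤ) where
  carrier := {γ | ∃ N : ℤ, N ≠ 0 ∧ N • γ ∈ AddSubgroup.closure D}
  zero_mem' := ⟨1, one_ne_zero, by simp⟩
  add_mem' := by
    rintro γ γ' ⟨N, hN, h⟩ ⟨N', hN', h'⟩
    refine ⟨N * N', mul_ne_zero hN hN', ?_⟩
    have h1 : (N * N') • (γ + γ') = N' • (N • γ) + N • (N' • γ') := by
      rw [smul_add, smul_smul, smul_smul, mul_comm N' N]
    rw [h1]
    exact (AddSubgroup.closure D).add_mem ((AddSubgroup.closure D).zsmul_mem h _)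
      ((AddSubgroup.closure D).zsmul_mem h' _)
  neg_mem' := by
    rintro γ ⟨N, hN, h⟩
    refine ⟨N, hN, ?_⟩
    rw [smul_neg]
    exact (AddSubgroup.closure D).neg_mem h

lemma satur_saturated (D : Set (Fin (n + 1) → ℤ)) : Saturated (satur D) := by
  rintro N hN γ ⟨N', hN', h⟩
  refine ⟨N' * N, mul_ne_zero hN' hN, ?_⟩
  rw [← smul_smul]
  exact h

/-- differences of the exponents of two monomials of one polynomial of `S` -/
def diffs (S : Set (MvPolynomial (Fin (n + 1)) ℂ)) : Set (Fin (n + 1) → ℤ) :=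
  {γ | ∃ F ∈ S, ∃ α ∈ F.support, ∃ β ∈ F.support, γ = fun i => (α i : ℤ) - β i}

lemma diffs_finite {S : Set (MvPolynomial (Fin (n + 1)) ℂ)} (hS : S.Finite) :
    (diffs S).Finite := by
  have : diffs S = ⋃ F ∈ S, ⋃ α ∈ (F.support : Set (Fin (n + 1) →₀ ℕ)),
      ⋃ β ∈ (F.support : Set (Fin (n + 1) →₀ ℕ)), {fun i => (α i : ℤ) - β i} := by
    ext γ
    simp only [diffs, Set.mem_iUnion, Set.mem_singleton_iff, exists_prop]
    rfl
  rw [this]
  refine hS.biUnion fun F _ => (Finset.finite_toSet _).biUnion fun α _ =>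
    (Finset.finite_toSet _).biUnion fun β _ => Set.finite_singleton _

/-- the finitely many subtori -/
def subtori (S : Set (MvPolynomial (Fin (n + 1)) ℂ)) : Set (AddSubgroup (Fin (n + 1) → ℤ)) :=
  satur '' {D | D ⊆ diffs S}

lemma subtori_finite {S : Set (MvPolynomial (Fin (n + 1)) ℂ)} (hS : S.Finite) :
    (subtori S).Finite :=
  Set.Finite.image _ (diffs_finite hS).finite_subsets

lemma subtori_saturated {S : Set (MvPolynomial (Fin (n + 1)) ℂ)}
    {R : AddSubgroup (Fin (n + 1) → ℤ)} (hR : R ∈ subtori S) : Saturated R := by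
  obtain ⟨D, -, rfl⟩ := hR
  exact satur_saturated D

theorem orbit_thm {k m : ℕ} {S : Set (MvPolynomial (Fin (n + 1)) ℂ)}
    (hS : ∀ F ∈ S, ∃ d, F.IsHomogeneous d) (hk : ∀ F ∈ S, F.support.card ≤ k)
    (hm : k * (k - 2) < m) (φ : ℂ → Projectivization ℂ (Fin (n + 1) → ℂ)) (hφ : IsHolo φ)
    (hX : ∀ z, φ z ∈ fermatCover m S) :
    ∃ R ∈ subtori S, ∃ p, torusOrbit R p ⊆ fermatCover m S ∧
      ∀ᶠ z in codiscrete ℂ, φ z ∈ torusOrbit R p := by
  classical
  obtain ⟨I, u, hu, hu0, hrep, hconst⟩ := exists_ratios_pr φ hφ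
  have hm0 : 0 < m := lt_of_le_of_lt (Nat.zero_le _) hm
  have hvan : ∀ F ∈ S, ∀ z, (∀ i ∈ I, dv (u i) z = 0) →
      MvPolynomial.eval (fun i => u i z ^ m) F = 0 := by
    intro F hF z hz
    obtain ⟨h1, h2⟩ := hrep z hz
    have h3 := hX z
    rw [h2, mem_mk hS h1] at h3
    exact h3 F hF
  obtain ⟨z0, hz0⟩ := exists_good I hu
  let D : Set (Fin (n + 1) → ℤ) := diffs S ∩ relGroup I u hu
  have hRsub : ∀ γ ∈ satur D, γ ∈ relGroup I u hu := by
    rintro γ ⟨N, hN, h⟩
    apply relGroup_saturated I u hu hN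
    exact (AddSubgroup.closure_le _).2 (fun x hx => hx.2) h
  obtain ⟨h1, h2⟩ := hrep z0 hz0
  obtain ⟨a, ha⟩ := Projectivization.exists_smul_eq_mk_rep ℂ _ h1
  have hrepz : (φ z0).rep = fun i => (a : ℂ) * u i z0 := by
    rw [h2, ← ha]; rfl
  refine ⟨satur D, ⟨D, Set.inter_subset_left, rfl⟩, φ z0, ?_, ?_⟩
  · rintro q ⟨t, ht, hne, rfl⟩
    rw [mem_mk hS hne]
    have h3 : VMem m S (fun i => (t i : ℂ) * u i z0) := by
      intro F hF
      obtain ⟨d, hd⟩ := hS F hF
      refine orbit_vanish hm0 (bc_of hm) I u hu hu0 F hd (hk F hF) (hvan F hF)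
        (fun i => (t i : ℂ)) ?_ z0 hz0
      intro α hα β hβ hrel
      have h4 : (fun i => (α i : ℤ) - β i) ∈ satur D :=
        ⟨1, one_ne_zero, by
          rw [one_smul]
          exact AddSubgroup.subset_closure ⟨⟨F, hF, α, hα, β, hβ, rfl⟩, hrel⟩⟩
      have h5 := ht _ h4
      have h6 : ∏ i ∈ I, ((t i : ℂˣ) ^ ((α i : ℤ) - β i)) = 1 := by
        rw [← h5]
        apply Finset.prod_subset (Finset.subset_univ I)
        intro i _ hi
        have := hrel.1 i hi
        simp only at this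
        rw [this, zpow_zero]
      have h7 : ∏ i ∈ I, (t i : ℂˣ) ^ α i = ∏ i ∈ I, (t i : ℂˣ) ^ β i := by
        have h8 : ∏ i ∈ I, ((t i : ℂˣ) ^ ((α i : ℤ) - β i)) =
            (∏ i ∈ I, (t i : ℂˣ) ^ α i) / ∏ i ∈ I, (t i : ℂˣ) ^ β i := by
          rw [← Finset.prod_div_distrib]
          apply Finset.prod_congr rfl
          intro i _
          rw [zpow_sub, zpow_natCast, zpow_natCast, div_eq_mul_inv]
        rw [h8] at h6
        exact div_eq_one.1 h6
      have h9 := congrArg (fun x : ℂˣ => (x : ℂ)) h7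
      simpa using h9
    have h4 : (fun i => (t i : ℂ) * (φ z0).rep i) = fun i => (a : ℂ) * ((t i : ℂ) * u i z0) := by
      funext i
      rw [hrepz]; ring
    rw [h4]
    exact h3.smul hS _
  · have hev : ∀ᶠ z in codiscrete ℂ, ∀ i ∈ I, dv (u i) z = 0 := by
      rw [Filter.eventually_all_finset]
      exact fun i hi => (hu i hi).codiscrete_dv
    filter_upwards [hev] with z hz
    obtain ⟨h3, h4⟩ := hrep z hz
    let t : Fin (n + 1) → ℂˣ := fun i =>
      if hi : i ∈ I then Units.mk0 (u i z) ((hu i hi).ne_zero (hz i hi)) /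
        Units.mk0 (u i z0) ((hu i hi).ne_zero (hz0 i hi)) else 1
    have ht : ∀ i ∈ I, (t i : ℂ) = u i z / u i z0 := by
      intro i hi
      simp only [t, dif_pos hi]
      simp
    have ht1 : ∀ i, i ∉ I → t i = 1 := by
      intro i hi
      simp only [t, dif_neg hi]
    have hvec : (fun i => (t i : ℂ) * (φ z0).rep i) = fun i => (a : ℂ) * u i z := by
      funext i
      rw [hrepz]
      by_cases hi : i ∈ I
      · rw [ht i hi]
        have := (hu i hi).ne_zero (hz0 i hi)
        field_simp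
      · simp only [hu0 i hi z, hu0 i hi z0, mul_zero]
    have hne : (fun i => (t i : ℂ) * (φ z0).rep i) ≠ 0 := by
      rw [hvec]
      intro h0
      apply h3
      funext i
      have := congrFun h0 i
      exact (mul_eq_zero.1 this).resolve_left a.ne_zero
    refine ⟨t, ?_, hne, ?_⟩
    · intro γ hγ
      obtain ⟨h5, -, e, he, h6⟩ := hRsub γ hγ
      have h7 := h6 z hz
      have h8 := h6 z0 hz0
      have h9 : ∏ i, t i ^ γ i = ∏ i ∈ I, t i ^ γ i := by
        symm
        apply Finset.prod_subset (Finset.subset_univ I)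
        intro i _ hi
        rw [ht1 i hi, one_zpow]
      rw [h9]
      apply Units.ext
      rw [Units.val_one, Units.coe_prod]
      have h10 : ∏ i ∈ I, (((t i ^ γ i : ℂˣ)) : ℂ) = (∏ i ∈ I, u i z ^ γ i) / ∏ i ∈ I, u i z0 ^ γ i := by
        rw [← Finset.prod_div_distrib]
        apply Finset.prod_congr rfl
        intro i hi
        rw [Units.val_zpow_eq_zpow_val, ht i hi, div_zpow]
      rw [h10, h7, h8, div_self he]
    · rw [h4, Projectivization.mk_eq_mk_iff']
      refine ⟨(a : ℂ)⁻¹, ?_⟩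
      rw [hvec]
      funext i
      simp

lemma prod_zpow_eq {ι : Type*} (s : Finset ι) (a : ℂˣ) (f : ι → ℤ) :
    ∏ i ∈ s, a ^ f i = a ^ ∑ i ∈ s, f i := by
  classical
  induction s using Finset.induction_on with
  | empty => simp
  | insert i s hi ih => rw [Finset.prod_insert hi, Finset.sum_insert hi, ih, zpow_add]

/-- a holomorphic map that is generically equal to a point is constant -/
lemma eq_of_codiscrete {φ : ℂ → Projectivization ℂ (Fin (n + 1) → ℂ)} (hφ : IsHolo φ)
    {p : Projectivization ℂ (Fin (n + 1) → ℂ)} (h : ∀ᶠ z in codiscrete ℂ, φ z = p) (a : ℂ) :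
    φ a = p := by
  obtain ⟨f, hf1, hf2⟩ := hφ a
  have hcont : ContinuousAt f a := hf1.self_of_nhds.continuousAt
  have h1 : ∀ᶠ z in 𝓝[≠] a, φ z = p := eventually_ne_of_codiscrete h a
  -- the vanishing of all minors is a closed condition
  have h2 : ∀ i j, f a i * p.rep j = f a j * p.rep i := by
    intro i j
    have h3 : ∀ᶠ z in 𝓝[≠] a, f z i * p.rep j = f z j * p.rep i := by
      filter_upwards [h1, hf2.filter_mono nhdsWithin_le_nhds] with z hz hz'
      obtain ⟨hne, hz'⟩ := hz'
      have h4 : Projectivization.mk ℂ (f z) hne = Projectivization.mk ℂ p.rep p.rep_nonzero := by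
        rw [← hz', hz, Projectivization.mk_rep]
      rw [Projectivization.mk_eq_mk_iff'] at h4
      obtain ⟨c, hc⟩ := h4
      rw [← hc]
      simp only [Pi.smul_apply, smul_eq_mul]
      ring
    have hc1 : ContinuousAt (fun z => f z i * p.rep j) a :=
      ((continuous_apply i).continuousAt.comp hcont).mul continuousAt_const
    have hc2 : ContinuousAt (fun z => f z j * p.rep i) a :=
      ((continuous_apply j).continuousAt.comp hcont).mul continuousAt_const
    have ht1 := hc1.tendsto.mono_left (nhdsWithin_le_nhds (s := {a}ᶜ))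
    have ht2 := hc2.tendsto.mono_left (nhdsWithin_le_nhds (s := {a}ᶜ))
    exact tendsto_nhds_unique (ht1.congr' h3) ht2
  obtain ⟨hne, ha⟩ := hf2.self_of_nhds
  rw [ha, ← Projectivization.mk_rep p, Projectivization.mk_eq_mk_iff']
  obtain ⟨j, hj⟩ : ∃ j, p.rep j ≠ 0 := Function.ne_iff.1 p.rep_nonzero
  refine ⟨f a j / p.rep j, ?_⟩
  funext i
  simp only [Pi.smul_apply, smul_eq_mul]
  have := h2 i j
  field_simp
  linear_combination -this

/-- an orbit of a subtorus that is not a point contains an orbit of a one-parameter group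
through every point -/
theorem toric_of_orbit {X : Set (Projectivization ℂ (Fin (n + 1) → ℂ))}
    {R : AddSubgroup (Fin (n + 1) → ℤ)} (hR : Saturated R)
    {p : Projectivization ℂ (Fin (n + 1) → ℂ)} (hX : torusOrbit R p ⊆ X)
    (hne : ¬ torusOrbit R p ⊆ {p}) : ∃ w : Fin (n + 1) → ℕ, ToricOrbitIn X w p := by
  classical
  rw [Set.not_subset] at hne
  obtain ⟨q, ⟨t, ht, hq0, rfl⟩, hqp⟩ := hne
  -- two coordinates on which `t` differs
  obtain ⟨i, j, hi, hj, hij⟩ : ∃ i j, p.rep i ≠ 0 ∧ p.rep j ≠ 0 ∧ t i ≠ t j := by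
    by_contra hcon
    push Not at hcon
    apply hqp
    obtain ⟨j, hj⟩ : ∃ j, p.rep j ≠ 0 := Function.ne_iff.1 p.rep_nonzero
    rw [Set.mem_singleton_iff]
    conv_rhs => rw [← Projectivization.mk_rep p]
    rw [Projectivization.mk_eq_mk_iff']
    refine ⟨(t j : ℂ), ?_⟩
    funext i
    simp only [Pi.smul_apply, smul_eq_mul]
    by_cases hi : p.rep i = 0
    · rw [hi]; ring
    · rw [hcon i j hi hj]
  have hδ : ∀ N : ℤ, N ≠ 0 → N • (Pi.single i 1 - Pi.single j 1 : Fin (n + 1) → ℤ) ∉ R := by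
    intro N hN hmem
    have h1 := hR N hN _ hmem
    have h2 := ht _ h1
    have hne' : i ≠ j := by rintro rfl; exact hij rfl
    rw [← Finset.mul_prod_erase Finset.univ _ (Finset.mem_univ i),
      ← Finset.mul_prod_erase (Finset.univ.erase i) _
        (Finset.mem_erase.2 ⟨hne'.symm, Finset.mem_univ j⟩)] at h2
    rw [Finset.prod_eq_one] at h2
    · simp only [Pi.sub_apply, Pi.single_eq_same, Pi.single_eq_of_ne hne',
        Pi.single_eq_of_ne hne'.symm, mul_one, sub_zero, zpow_one, zero_sub, zpow_neg] at h2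
      apply hij
      exact mul_inv_eq_one.1 h2
    · intro x hx
      rw [Finset.mem_erase, Finset.mem_erase] at hx
      simp [Pi.single_eq_of_ne hx.1, Pi.single_eq_of_ne hx.2.1]
  obtain ⟨w', hw'1, hw'2⟩ := exists_functional R _ hδ
  have hw'ne : w' i ≠ w' j := by
    intro h
    apply hw'2
    have h1 : ∀ l, w' l * (Pi.single i 1 - Pi.single j 1 : Fin (n + 1) → ℤ) l =
        w' l * (Pi.single i 1 : Fin (n + 1) → ℤ) l -
          w' l * (Pi.single j 1 : Fin (n + 1) → ℤ) l := by
      intro l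
      rw [Pi.sub_apply, mul_sub]
    rw [Finset.sum_congr rfl (fun i _ => h1 i), Finset.sum_sub_distrib]
    simp [Pi.single_apply, h]
  obtain ⟨a, -, ha⟩ := Finset.univ.exists_min_image w' ⟨i, Finset.mem_univ i⟩
  let w : Fin (n + 1) → ℕ := fun l => (w' l - w' a).toNat
  have hw : ∀ l, (w l : ℤ) = w' l - w' a := fun l =>
    Int.toNat_of_nonneg (sub_nonneg.2 (ha l (Finset.mem_univ l)))
  refine ⟨w, fun s hs h0 => ?_, i, j, hi, hj, ?_⟩
  · let su : ℂˣ := Units.mk0 s hs
    have hmem : (fun l => su ^ w' l) ∈ diagTorus R := by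
      intro γ hγ
      have h1 := hw'1 γ hγ
      simp only [← zpow_mul]
      rw [prod_zpow_eq, h1, zpow_zero]
    have hvec : (fun l => ((su ^ w' l : ℂˣ) : ℂ) * p.rep l) =
        (s ^ w' a) • fun l => s ^ w l * p.rep l := by
      funext l
      simp only [Pi.smul_apply, smul_eq_mul, Units.val_zpow_eq_zpow_val, su, Units.val_mk0]
      rw [← mul_assoc, ← zpow_natCast, ← zpow_add₀ hs, hw l]
      congr 2
      ring
    have hs' : s ^ w' a ≠ 0 := zpow_ne_zero _ hs
    have hne0 : (fun l => ((su ^ w' l : ℂˣ) : ℂ) * p.rep l) ≠ 0 := by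
      rw [hvec]
      exact smul_ne_zero hs' h0
    have h1 : Projectivization.mk ℂ _ hne0 ∈ torusOrbit R p := ⟨_, hmem, hne0, rfl⟩
    have h2 : Projectivization.mk ℂ _ hne0 = Projectivization.mk ℂ _ h0 := by
      rw [Projectivization.mk_eq_mk_iff']
      exact ⟨s ^ w' a, hvec.symm⟩
    rw [← h2]
    exact hX h1
  · intro h
    apply hw'ne
    have h1 := hw i
    have h2 := hw j
    omega

theorem strongLang {k m : ℕ} {S : Set (MvPolynomial (Fin (n + 1)) ℂ)}
    (hS : ∀ F ∈ S, ∃ d, F.IsHomogeneous d) (hk : ∀ F ∈ S, F.support.card ≤ k)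
    (hm : k * (k - 2) < m) : StrongLang (subtori S) (fermatCover m S) := by
  refine ⟨orbit_thm hS hk hm, structure_thm hS hk hm, ?_⟩
  tfae_have 1 → 2 := brody_noTorus
  tfae_have 1 → 3 := brody_noRational hS
  tfae_have 2 → 5 := noTorus_noToric hS
  tfae_have 3 → 5 := noRational_noToric hS
  tfae_have 5 → 4 := by
    intro h R hR p hp
    by_contra hne
    obtain ⟨w, hw⟩ := toric_of_orbit (subtori_saturated hR) hp hne
    exact h w p hw
  tfae_have 4 → 1 := by
    intro h φ hφ hX z z'
    obtain ⟨R, hR, p, hp, hev⟩ := orbit_thm hS hk hm φ hφ hX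
    have h1 := h R hR p hp
    have h2 : ∀ᶠ z in codiscrete ℂ, φ z = p := by
      filter_upwards [hev] with z hz
      exact h1 hz
    rw [eq_of_codiscrete hφ h2 z, eq_of_codiscrete hφ h2 z']
  tfae_finish

lemma exists_finite_subset (S : Set (MvPolynomial (Fin (n + 1)) ℂ)) :
    ∃ S' : Finset (MvPolynomial (Fin (n + 1)) ℂ), (S' : Set _) ⊆ S ∧
      ∀ m, fermatCover m S = fermatCover m (S' : Set (MvPolynomial (Fin (n + 1)) ℂ)) := by
  have hfg : (Ideal.span S).FG := IsNoetherian.noetherian _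
  obtain ⟨S', hS', hspan⟩ := (Submodule.fg_span_iff_fg_span_finset_subset S).1 hfg
  have hspan' : Ideal.span S = Ideal.span (S' : Set (MvPolynomial (Fin (n + 1)) ℂ)) := hspan
  refine ⟨S', hS', fun m => ?_⟩
  ext p
  constructor
  · intro h F hF
    exact h F (hS' hF)
  · intro h F hF
    have h1 : F ∈ Ideal.span (S' : Set (MvPolynomial (Fin (n + 1)) ℂ)) := by
      rw [← hspan']; exact Ideal.subset_span hF
    have h2 : Ideal.span (S' : Set (MvPolynomial (Fin (n + 1)) ℂ)) ≤
        RingHom.ker (MvPolynomial.eval (fun i => p.rep i ^ m)) := by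
      rw [Ideal.span_le]
      intro G hG
      exact h G hG
    exact h2 h1

theorem main_thm (S : Set (MvPolynomial (Fin (n + 1)) ℂ))
    (hS : ∀ F ∈ S, ∃ d, F.IsHomogeneous d) :
    ∃ T : Set (AddSubgroup (Fin (n + 1) → ℤ)), T.Finite ∧ (∀ R ∈ T, Saturated R) ∧
      (∀ k m : ℕ, (∀ F ∈ S, F.support.card ≤ k) → k * (k - 2) < m →
        StrongLang T (fermatCover m S)) ∧
      ∃ m₀ : ℕ, ∀ m, m₀ ≤ m → StrongLang T (fermatCover m S) := by
  obtain ⟨S', hS', heq⟩ := exists_finite_subset S
  refine ⟨subtori (S' : Set (MvPolynomial (Fin (n + 1)) ℂ)), subtori_finite S'.finite_toSet,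
    fun R hR => subtori_saturated hR, fun k m hk hm => ?_, ?_⟩
  · rw [heq m]
    exact strongLang (fun F hF => hS F (hS' hF)) (fun F hF => hk F (hS' hF)) hm
  · let k := S'.sup fun F => F.support.card
    refine ⟨k * (k - 2) + 1, fun m hm => ?_⟩
    rw [heq m]
    exact strongLang (fun F hF => hS F (hS' hF))
      (fun F hF => Finset.le_sup (f := fun F : MvPolynomial (Fin (n + 1)) ℂ => F.support.card) hF)
      hm

end LangFC
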